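import Mathlib

set_option autoImplicit false

/-!
A 3-diregular oriented graph on 13 vertices with no Hamilton cycle.
-/

namespace Run7.h419.Jackson

/-- Out-neighbour lists of the digraph. -/
def outl : ℕ → List ℕ
  | 0 => [4, 5, 12]
  | 1 => [3, 8, 12]
  | 2 => [7, 9, 11]
  | 3 => [0, 2, 11]
  | 4 => [2, 6, 7]
  | 5 => [1, 6, 11]
  | 6 => [9, 10, 12]
  | 7 => [5, 6, 8]
  | 8 => [3, 5, 10]
  | 9 => [0, 3, 4]
  | 10 => [1, 2, 9]
  | 11 => [0, 1, 7]
  | 12 => [4, 8, 10]
  | _ => []

/-- Adjacency. -/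
def adj (i j : ℕ) : Bool := (outl i).contains j

/-- `dead k v vis`: no path of `k` further steps from `v` avoiding `vis` closes up to `0`. -/
def dead : ℕ → ℕ → List ℕ → Bool
  | 0, v, _ => !(adj v 0)
  | k + 1, v, vis => (outl v).all (fun w => vis.contains w || dead k w (w :: vis))

theorem dead_start : dead 12 0 [0] = true := by decide +kernel

theorem dead_sound (g : ℕ → ℕ) (hstep : ∀ i, g (i + 1) ∈ outl (g i))
    (hinj : ∀ i j, i < 13 → j < 13 → g i = g j → i = j) (hclose : g 13 = 0) :
    ∀ (k i : ℕ) (vis : List ℕ), i + k = 12 → (∀ x ∈ vis, ∃ j, j ≤ i ∧ x = g j) →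
      dead k (g i) vis = true → False := by
  intro k
  induction k with
  | zero =>
    intro i vis hik _ hd
    have hi : i = 12 := by omega
    subst hi
    have h1 := hstep 12
    rw [hclose] at h1
    simp only [dead, adj, Bool.not_eq_true', List.contains_eq_mem, decide_eq_false_iff_not] at hd
    exact hd h1
  | succ k ih =>
    intro i vis hik hvis hd
    rw [dead, List.all_eq_true] at hd
    have h1 := hd (g (i + 1)) (hstep i)
    rw [Bool.or_eq_true] at h1
    rcases h1 with h1 | h1
    · rw [List.contains_eq_mem, decide_eq_true_eq] at h1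
      obtain ⟨j, hj, hgj⟩ := hvis _ h1
      have := hinj (i + 1) j (by omega) (by omega) hgj
      omega
    · refine ih (i + 1) (g (i + 1) :: vis) (by omega) ?_ h1
      intro x hx
      rw [List.mem_cons] at hx
      rcases hx with rfl | hx
      · exact ⟨i + 1, le_rfl, rfl⟩
      · obtain ⟨j, hj, hxj⟩ := hvis x hx
        exact ⟨j, by omega, hxj⟩

/-- The digraph on `Fin 13`. -/
def D : Digraph (Fin 13) where
  Adj u v := adj u.val v.val = true

theorem D_oriented : ∀ u v : Fin 13, D.Adj u v → ¬ D.Adj v u := by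
  show ∀ u v : Fin 13, adj u.val v.val = true → ¬ adj v.val u.val = true
  decide +kernel

theorem D_out : ∀ v : Fin 13, Set.ncard {u : Fin 13 | D.Adj v u} = 3 := by
  intro v
  have h : ∀ v : Fin 13, (Finset.univ.filter (fun u : Fin 13 => adj v.val u.val = true)).card = 3 := by
    decide +kernel
  rw [← h v, ← Set.ncard_coe_finset]
  congr 1
  ext u
  simp [D]

theorem D_in : ∀ v : Fin 13, Set.ncard {u : Fin 13 | D.Adj u v} = 3 := by
  intro v
  have h : ∀ v : Fin 13, (Finset.univ.filter (fun u : Fin 13 => adj u.val v.val = true)).card = 3 := by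
    decide +kernel
  rw [← h v, ← Set.ncard_coe_finset]
  congr 1
  ext u
  simp [D]

theorem D_noham : ¬ ∃ f : Fin 13 → Fin 13, Function.Bijective f ∧
    ∀ i j : Fin 13, j.val = (i.val + 1) % 13 → D.Adj (f i) (f j) := by
  rintro ⟨f, hf, hadj⟩
  obtain ⟨i0, hi0⟩ := hf.2 0
  let g : ℕ → ℕ := fun k => (f ⟨(i0.val + k) % 13, Nat.mod_lt _ (by norm_num)⟩).val
  have hstep : ∀ i, g (i + 1) ∈ outl (g i) := by
    intro i
    have h1 := hadj ⟨(i0.val + i) % 13, Nat.mod_lt _ (by norm_num)⟩
      ⟨(i0.val + (i + 1)) % 13, Nat.mod_lt _ (by norm_num)⟩ (by simp only; omega)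
    have h2 : adj (g i) (g (i + 1)) = true := h1
    rw [adj, List.contains_eq_mem, decide_eq_true_eq] at h2
    exact h2
  have hinj : ∀ i j, i < 13 → j < 13 → g i = g j → i = j := by
    intro i j hi hj h
    have h1 := hf.1 (Fin.ext h)
    have h2 : (i0.val + i) % 13 = (i0.val + j) % 13 := by
      have := congrArg Fin.val h1
      exact this
    omega
  have hg0 : g 0 = 0 := by
    have h1 : (⟨(i0.val + 0) % 13, Nat.mod_lt _ (by norm_num)⟩ : Fin 13) = i0 := by
      apply Fin.ext
      simp only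
      have := i0.isLt
      omega
    show (f ⟨(i0.val + 0) % 13, Nat.mod_lt _ (by norm_num)⟩).val = 0
    rw [h1, hi0]
    rfl
  have hclose : g 13 = 0 := by
    rw [← hg0]
    show (f ⟨(i0.val + 13) % 13, Nat.mod_lt _ (by norm_num)⟩).val =
      (f ⟨(i0.val + 0) % 13, Nat.mod_lt _ (by norm_num)⟩).val
    congr 2
    apply Fin.ext
    simp only
    omega
  refine dead_sound g hstep hinj hclose 12 0 [0] rfl ?_ ?_
  · intro x hx
    rw [List.mem_singleton] at hx
    exact ⟨0, le_rfl, by rw [hx, hg0]⟩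
  · rw [hg0]
    exact dead_start

theorem not_jackson :
    ¬ (∀ (d n : ℕ), 2 < d → n ≤ 4 * d + 1 →
      ∀ G : Digraph (Fin n),
        (∀ u v : Fin n, G.Adj u v → ¬ G.Adj v u) →
        (∀ v : Fin n, Set.ncard {u : Fin n | G.Adj v u} = d) →
        (∀ v : Fin n, Set.ncard {u : Fin n | G.Adj u v} = d) →
        ∃ f : Fin n → Fin n, Function.Bijective f ∧
          ∀ i j : Fin n, j.val = (i.val + 1) % n → G.Adj (f i) (f j)) := by
  intro h
  exact D_noham (h 3 13 (by norm_num) (by norm_num) D D_oriented D_out D_in)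

end Run7.h419.Jackson
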