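import Mathlib

set_option autoImplicit false

namespace Run7.h419

open Finset

/-- Slack completeness: if every member of `D` is at most `E` plus the sum of the smaller members,
then every `x ≤ ∑ D` is approximated from below within `E` by a subset sum. -/
theorem slack_complete (D : Finset ℕ) (E : ℕ) :
    (∀ d ∈ D, d ≤ E + ∑ x ∈ D.filter (· < d), x) →
    ∀ x ≤ ∑ d ∈ D, d, ∃ S ⊆ D, ∑ d ∈ S, d ≤ x ∧ x ≤ ∑ d ∈ S, d + E := by
  induction D using Finset.induction_on_max with
  | empty =>
    intro _ x hx
    refine ⟨∅, subset_rfl, ?_, ?_⟩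
    · simp
    · simp at hx
      simp [hx]
  | insert a s ha ih =>
    intro h x hx
    have hans : a ∉ s := fun h' => lt_irrefl a (ha a h')
    have hs : ∀ d ∈ s, d ≤ E + ∑ x ∈ s.filter (· < d), x := by
      intro d hd
      have h1 := h d (mem_insert_of_mem hd)
      have h2 : (insert a s).filter (· < d) = s.filter (· < d) := by
        rw [filter_insert]
        rw [if_neg]
        exact not_lt.mpr (ha d hd).le
      rwa [h2] at h1
    have ha' : a ≤ E + ∑ x ∈ s, x := by
      have h1 := h a (mem_insert_self a s)
      have h2 : (insert a s).filter (· < a) = s := by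
        rw [filter_insert]
        rw [if_neg (lt_irrefl a)]
        exact filter_true_of_mem ha
      rwa [h2] at h1
    rw [sum_insert hans] at hx
    by_cases hxa : a ≤ x
    · obtain ⟨S, hS, h1, h2⟩ := ih hs (x - a) (by omega)
      refine ⟨insert a S, insert_subset_insert a hS, ?_, ?_⟩
      · rw [sum_insert (fun h' => hans (hS h'))]; omega
      · rw [sum_insert (fun h' => hans (hS h'))]; omega
    · by_cases hxs : x ≤ ∑ d ∈ s, d
      · obtain ⟨S, hS, h1, h2⟩ := ih hs x hxs
        exact ⟨S, hS.trans (subset_insert a s), h1, h2⟩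
      · refine ⟨s, subset_insert a s, by omega, by omega⟩

end Run7.h419
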