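import Mathlib

set_option autoImplicit false

namespace Run7.h419

open Finset
open scoped Pointwise

theorem subset_sums_card (q : ℕ) [hq : Fact q.Prime] (P : Finset ℕ) :
    (∀ x ∈ P, ((x : ℕ) : ZMod q) ≠ 0) →
    min q (P.card + 1) ≤
      (P.powerset.image (fun S : Finset ℕ => ∑ x ∈ S, ((x : ℕ) : ZMod q))).card := by
  induction P using Finset.induction_on with
  | empty =>
    intro _
    simp
  | insert a P ha ih =>
    intro h
    have ih' := ih (fun x hx => h x (mem_insert_of_mem hx))
    set s := P.powerset.image (fun S : Finset ℕ => ∑ x ∈ S, ((x : ℕ) : ZMod q)) with hs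
    have hane : ((a : ℕ) : ZMod q) ≠ 0 := h a (mem_insert_self a P)
    have hsne : s.Nonempty := by
      refine ⟨0, ?_⟩
      rw [hs, mem_image]
      exact ⟨∅, by simp, by simp⟩
    have hcd := ZMod.cauchy_davenport hq.out hsne (t := {0, (a : ZMod q)}) (by simp)
    have hcard2 : ({0, (a : ZMod q)} : Finset (ZMod q)).card = 2 := by
      rw [card_pair hane.symm]
    rw [hcard2] at hcd
    have hsub : s + {0, (a : ZMod q)} ⊆
        (insert a P).powerset.image (fun S : Finset ℕ => ∑ x ∈ S, ((x : ℕ) : ZMod q)) := by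
      intro y hy
      rw [mem_add] at hy
      obtain ⟨u, hu, v, hv, rfl⟩ := hy
      rw [hs, mem_image] at hu
      obtain ⟨S, hS, rfl⟩ := hu
      rw [mem_powerset] at hS
      rw [mem_image]
      simp only [mem_insert, mem_singleton] at hv
      rcases hv with rfl | rfl
      · exact ⟨S, mem_powerset.mpr (hS.trans (subset_insert a P)), by simp⟩
      · refine ⟨insert a S, mem_powerset.mpr (insert_subset_insert a hS), ?_⟩
        rw [sum_insert (fun h' => ha (hS h'))]
        ring
    have hle := card_le_card hsub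
    rw [card_insert_of_notMem ha]
    have h3 : min q (P.card + 1 + 1) ≤ min q (s.card + 2 - 1) := by
      have := ih'
      omega
    exact h3.trans (hcd.trans hle)

/-- With at least `q - 1` elements nonzero mod `q`, subset sums hit every residue. -/
theorem elim_residue (q : ℕ) (hq : q.Prime) (P : Finset ℕ)
    (hP : ∀ x ∈ P, ¬ q ∣ x) (hcard : q ≤ P.card + 1) (R : ℕ) :
    ∃ S ⊆ P, (∑ x ∈ S, x) ≡ R [MOD q] := by
  have : Fact q.Prime := ⟨hq⟩
  have h1 := subset_sums_card q P (fun x hx => by
    rw [Ne, ZMod.natCast_eq_zero_iff]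
    exact hP x hx)
  rw [min_eq_left hcard] at h1
  have h2 : P.powerset.image (fun S : Finset ℕ => ∑ x ∈ S, ((x : ℕ) : ZMod q)) = univ := by
    rw [← card_eq_iff_eq_univ]
    refine le_antisymm (card_le_univ _) ?_
    rw [ZMod.card]
    exact h1
  have h3 : (R : ZMod q) ∈ P.powerset.image
      (fun S : Finset ℕ => ∑ x ∈ S, ((x : ℕ) : ZMod q)) := by
    rw [h2]; exact mem_univ _
  rw [mem_image] at h3
  obtain ⟨S, hS, hSR⟩ := h3
  refine ⟨S, mem_powerset.mp hS, ?_⟩
  rw [← ZMod.natCast_eq_natCast_iff]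
  push_cast
  exact hSR

/-- Extraction of one pair with difference in `[G, Λ]`. -/
theorem exists_pair (A R G Λ : ℕ) (hG : 0 < G) (hΛ : 0 < Λ) (Y : Finset ℕ)
    (hY : ∀ y ∈ Y, A ≤ y ∧ y < A + R) (hm : G * (R / Λ + 1) < Y.card) :
    ∃ y ∈ Y, ∃ y' ∈ Y, y' + G ≤ y ∧ y ≤ y' + Λ := by
  classical
  have hmap : ∀ y ∈ Y, (y - A) / Λ ∈ range (R / Λ + 1) := by
    intro y hy
    rw [mem_range]
    have h := hY y hy
    have : (y - A) / Λ ≤ R / Λ := Nat.div_le_div_right (by omega)
    omega
  obtain ⟨b, hb, hlt⟩ := exists_lt_card_fiber_of_mul_lt_card_of_maps_to hmap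
    (n := G) (by rw [card_range, mul_comm]; exact hm)
  set f := Y.filter (fun y => (y - A) / Λ = b) with hf
  have hne : f.Nonempty := by
    rw [← card_pos]; omega
  have hmem : ∀ x ∈ f, x ∈ Y ∧ (x - A) / Λ = b := by
    intro x hx
    rw [hf, mem_filter] at hx
    exact hx
  have hmax := hmem _ (f.max'_mem hne)
  have hmin := hmem _ (f.min'_mem hne)
  have hsub : f ⊆ Icc (f.min' hne) (f.max' hne) := by
    intro x hx
    rw [mem_Icc]
    exact ⟨f.min'_le x hx, f.le_max' x hx⟩
  have hcard := card_le_card hsub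
  rw [Nat.card_Icc] at hcard
  refine ⟨f.max' hne, hmax.1, f.min' hne, hmin.1, by omega, ?_⟩
  have h1 := hmax.2
  have h2 := hmin.2
  have h3 := hY _ hmax.1
  have h4 := hY _ hmin.1
  have h5 : (f.max' hne - A) < Λ * b + Λ := by
    have := Nat.lt_mul_div_succ (f.max' hne - A) hΛ
    rw [h1] at this
    linarith
  have h6 : Λ * b ≤ (f.min' hne - A) := by
    have := Nat.mul_div_le (f.min' hne - A) Λ
    rw [h2] at this
    exact this
  omega

/-- A family of toggles from close pairs: subset sums of `U` approximate `B + x` from below within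
`Λ`, for all `x ≤ n * G`. -/
theorem pair_family (A R G Λ m : ℕ) (hG : 0 < G) (hΛ : 0 < Λ) (hm : G * (R / Λ + 1) < m) :
    ∀ (n : ℕ) (Y : Finset ℕ), (∀ y ∈ Y, A ≤ y ∧ y < A + R) → m + 2 * n ≤ Y.card →
    ∃ U ⊆ Y, ∃ B, (∃ S ⊆ U, ∑ s ∈ S, s = B) ∧
      ∀ x ≤ n * G, ∃ S ⊆ U, ∑ s ∈ S, s ≤ B + x ∧ B + x ≤ ∑ s ∈ S, s + Λ := by
  classical
  intro n
  induction n with
  | zero =>
    intro Y _ _
    refine ⟨∅, empty_subset _, 0, ⟨∅, subset_rfl, by simp⟩, ?_⟩
    intro x hx
    refine ⟨∅, subset_rfl, ?_, ?_⟩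
    · simp
    · simp at hx; simp [hx]
  | succ n ih =>
    intro Y hY hcard
    obtain ⟨y, hy, y', hy', h1, h2⟩ := exists_pair A R G Λ hG hΛ Y hY (by omega)
    have hyy : y ≠ y' := by omega
    set Y1 := (Y.erase y).erase y' with hY1
    have hy'e : y' ∈ Y.erase y := mem_erase.mpr ⟨hyy.symm, hy'⟩
    have hcard1 : Y1.card = Y.card - 1 - 1 := by
      rw [hY1, card_erase_of_mem hy'e, card_erase_of_mem hy]
    obtain ⟨U, hU, B, ⟨S0, hS0, hS0B⟩, hx⟩ := ih Y1 (fun z hz => hY z (by
      rw [hY1] at hz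
      exact mem_of_mem_erase (mem_of_mem_erase hz))) (by omega)
    have hyU : y ∉ U := by
      intro h
      have := hU h
      rw [hY1] at this
      exact (notMem_erase y Y) (mem_of_mem_erase this)
    have hy'U : y' ∉ U := by
      intro h
      have := hU h
      rw [hY1] at this
      exact (notMem_erase y' _) this
    refine ⟨insert y (insert y' U), ?_, B + y', ⟨insert y' S0, ?_, ?_⟩, ?_⟩
    · intro z hz
      rw [mem_insert, mem_insert] at hz
      rcases hz with rfl | rfl | hz
      · exact hy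
      · exact hy'
      · have := hU hz
        rw [hY1] at this
        exact mem_of_mem_erase (mem_of_mem_erase this)
    · exact (insert_subset_insert _ hS0).trans (subset_insert _ _)
    · rw [sum_insert (fun h => hy'U (hS0 h)), hS0B]; ring
    · intro x hxle
      by_cases hc : x < y - y'
      · refine ⟨insert y' S0, (insert_subset_insert _ hS0).trans (subset_insert _ _), ?_, ?_⟩
        · rw [sum_insert (fun h => hy'U (hS0 h)), hS0B]; omega
        · rw [sum_insert (fun h => hy'U (hS0 h)), hS0B]; omega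
      · obtain ⟨S, hS, hs1, hs2⟩ := hx (x - (y - y')) (by
          have : (n + 1) * G = n * G + G := by ring
          omega)
        refine ⟨insert y S, ?_, ?_, ?_⟩
        · exact insert_subset_insert _ (hS.trans (subset_insert _ _))
        · rw [sum_insert (fun h => hyU (hS h))]; omega
        · rw [sum_insert (fun h => hyU (hS h))]; omega

end Run7.h419
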