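import Mathlib

set_option autoImplicit false

namespace Run7.h419

open Finset
open scoped Pointwise Combinatorics.Additive

/-- Solutions of `a + b = c + q`. -/
def Sol (Q : Finset ℕ) (q : ℕ) : Finset ((ℕ × ℕ) × ℕ) :=
  ((Q ×ˢ Q) ×ˢ Q).filter (fun t => t.1.1 + t.1.2 = t.2 + q)

/-- Nondegenerate solutions of `a + b = c + q`. -/
def Nd (Q : Finset ℕ) (q : ℕ) : Finset ((ℕ × ℕ) × ℕ) :=
  (Sol Q q).filter (fun t => t.1.1 ≠ t.1.2 ∧ t.1.1 ≠ t.2 ∧ t.1.2 ≠ t.2 ∧
    t.1.1 ≠ q ∧ t.1.2 ≠ q ∧ t.2 ≠ q)

theorem energy_eq (Q : Finset ℕ) :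
    E[Q, Q] = ∑ q ∈ Q, (Sol Q q).card := by
  rw [addEnergy_eq_card_filter]
  rw [card_eq_sum_card_fiberwise (f := fun x => x.2.2) (t := Q)]
  · refine sum_congr rfl ?_
    intro q hq
    refine card_nbij' (fun x => (x.1, x.2.1)) (fun t => (t.1, (t.2, q))) ?_ ?_ ?_ ?_
    · intro x hx
      simp only [Sol, coe_filter, mem_filter, mem_product, Set.mem_ofPred_eq] at hx ⊢
      obtain ⟨⟨⟨h1, h2⟩, h3⟩, h4⟩ := hx
      rw [h4] at h3
      exact ⟨⟨h1, h2.1⟩, h3⟩
    · intro t ht
      simp only [Sol, coe_filter, mem_filter, mem_product, Set.mem_ofPred_eq] at ht ⊢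
      exact ⟨⟨⟨ht.1.1, ht.1.2, hq⟩, ht.2⟩, trivial⟩
    · intro x hx
      simp only [coe_filter, mem_filter, Set.mem_ofPred_eq] at hx
      ext <;> simp [hx.2]
    · intro t ht
      rfl
  · intro x hx
    simp only [coe_filter, mem_product, Set.mem_ofPred_eq] at hx
    exact hx.1.2.2

theorem sol_le (Q : Finset ℕ) (q : ℕ) : (Sol Q q).card ≤ (Nd Q q).card + 4 * Q.card := by
  have hsub : Sol Q q ⊆ Nd Q q ∪ (Q.image (fun c => ((c, q), c)) ∪ (Q.image (fun c => ((q, c), c)) ∪
      (Q.image (fun a => ((a, a), 2 * a - q)) ∪ Q.image (fun a => ((a, 2 * q - a), q))))) := by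
    intro t ht
    have ht' := ht
    simp only [Sol, mem_filter, mem_product] at ht'
    obtain ⟨⟨⟨ha, hb⟩, hc⟩, he⟩ := ht'
    rcases t with ⟨⟨a, b⟩, c⟩
    simp only at ha hb hc he
    simp only [mem_union, mem_image, Nd, mem_filter]
    by_cases h1 : a = c
    · right; left
      exact ⟨c, hc, by rw [h1]; congr 2; omega⟩
    by_cases h2 : b = c
    · right; right; left
      exact ⟨c, hc, by rw [h2]; congr 2; omega⟩
    by_cases h3 : a = b
    · right; right; right; left
      refine ⟨a, ha, ?_⟩
      subst h3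
      congr 1
      omega
    by_cases h4 : c = q
    · right; right; right; right
      refine ⟨a, ha, ?_⟩
      subst h4
      congr 2
      omega
    left
    refine ⟨ht, h3, h1, h2, ?_, ?_, h4⟩
    · intro h; omega
    · intro h; omega
  refine (card_le_card hsub).trans ?_
  refine (card_union_le _ _).trans ?_
  have e1 := card_image_le (s := Q) (f := fun c => ((c, q), c))
  have e2 := card_image_le (s := Q) (f := fun c => ((q, c), c))
  have e3 := card_image_le (s := Q) (f := fun a => ((a, a), 2 * a - q))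
  have e4 := card_image_le (s := Q) (f := fun a => ((a, 2 * q - a), q))
  have u1 := card_union_le (Q.image (fun c => ((c, q), c))) (Q.image (fun c => ((q, c), c)) ∪
      (Q.image (fun a => ((a, a), 2 * a - q)) ∪ Q.image (fun a => ((a, 2 * q - a), q))))
  have u2 := card_union_le (Q.image (fun c => ((q, c), c)))
      (Q.image (fun a => ((a, a), 2 * a - q)) ∪ Q.image (fun a => ((a, 2 * q - a), q)))
  have u3 := card_union_le (Q.image (fun a => ((a, a), 2 * a - q)))
      (Q.image (fun a => ((a, 2 * q - a), q)))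
  omega

/-- Some `q` has many nondegenerate solutions. -/
theorem exists_popular (z : ℕ) (Q : Finset ℕ) (hQ : ∀ x ∈ Q, z ≤ x ∧ x < 2 * z)
    (hne : Q.Nonempty) :
    ∃ q ∈ Q, Q.card ^ 3 ≤ 2 * z * ((Nd Q q).card + 4 * Q.card) := by
  by_contra hcon
  push Not at hcon
  have hk : 0 < Q.card := card_pos.mpr hne
  have hE := le_card_add_mul_addEnergy Q Q
  have hsum : (Q + Q).card ≤ 2 * z := by
    have hsub : Q + Q ⊆ Ico (2 * z) (4 * z) := by
      intro x hx
      rw [mem_add] at hx
      obtain ⟨a, ha, b, hb, rfl⟩ := hx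
      have h1 := hQ a ha
      have h2 := hQ b hb
      rw [mem_Ico]
      omega
    have := card_le_card hsub
    rw [Nat.card_Ico] at this
    omega
  rw [energy_eq] at hE
  have h1 : (Q + Q).card * ∑ q ∈ Q, (Sol Q q).card ≤ 2 * z * ∑ q ∈ Q, (Sol Q q).card :=
    Nat.mul_le_mul_right _ hsum
  have h2 : 2 * z * ∑ q ∈ Q, (Sol Q q).card < ∑ q ∈ Q, Q.card ^ 3 := by
    rw [mul_sum]
    refine sum_lt_sum_of_nonempty hne ?_
    intro q hq
    refine lt_of_le_of_lt ?_ (hcon q hq)
    exact Nat.mul_le_mul_left _ (sol_le Q q)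
  rw [sum_const, smul_eq_mul] at h2
  have h3 : Q.card ^ 2 * Q.card ^ 2 = Q.card * Q.card ^ 3 := by ring
  omega

/-- Disjoint toggles of size exactly `q`. -/
theorem triple_family (Q : Finset ℕ) (q : ℕ) :
    ∀ n : ℕ, 9 * n * Q.card < (Nd Q q).card + 9 * Q.card →
    ∃ U ⊆ Q.erase q, U.card ≤ 3 * n ∧ ∃ B, ∀ j ≤ n, ∃ S ⊆ U, ∑ s ∈ S, s = B + j * q := by
  intro n
  induction n with
  | zero =>
    intro _
    refine ⟨∅, empty_subset _, by simp, 0, ?_⟩
    intro j hj
    refine ⟨∅, subset_rfl, ?_⟩
    simp at hj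
    simp [hj]
  | succ n ih =>
    intro hn
    have hn' : 9 * n * Q.card < (Nd Q q).card := by
      have : 9 * (n + 1) * Q.card = 9 * n * Q.card + 9 * Q.card := by ring
      omega
    obtain ⟨U, hU, hUc, B, hB⟩ := ih (by omega)
    have hUQ : U ⊆ Q := hU.trans (erase_subset _ _)
    -- a solution avoiding U
    have hex : ∃ t ∈ Nd Q q, t.1.1 ∉ U ∧ t.1.2 ∉ U ∧ t.2 ∉ U := by
      by_contra hcon
      push Not at hcon
      have hmem : ∀ t ∈ Nd Q q, (t.1.1 ∈ Q ∧ t.1.2 ∈ Q ∧ t.2 ∈ Q) ∧ t.1.1 + t.1.2 = t.2 + q := by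
        intro t ht
        simp only [Nd, Sol, mem_filter, mem_product] at ht
        exact ⟨⟨ht.1.1.1.1, ht.1.1.1.2, ht.1.1.2⟩, ht.1.2⟩
      have hsub : Nd Q q ⊆ (Nd Q q).filter (fun t => t.1.1 ∈ U) ∪
          ((Nd Q q).filter (fun t => t.1.2 ∈ U) ∪ (Nd Q q).filter (fun t => t.2 ∈ U)) := by
        intro t ht
        simp only [mem_union, mem_filter]
        by_cases h1 : t.1.1 ∈ U
        · left; exact ⟨ht, h1⟩
        · by_cases h2 : t.1.2 ∈ U
          · right; left; exact ⟨ht, h2⟩
          · right; right; exact ⟨ht, hcon t ht h1 h2⟩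
      have c1 : ((Nd Q q).filter (fun t => t.1.1 ∈ U)).card ≤ U.card * Q.card := by
        rw [← card_product]
        refine card_le_card_of_injOn (fun t => (t.1.1, t.1.2)) ?_ ?_
        · intro t ht
          simp only [coe_filter, Set.mem_ofPred_eq] at ht
          simp only [coe_product, Set.mem_prod, mem_coe]
          exact ⟨ht.2, (hmem t ht.1).1.2.1⟩
        · intro t ht t' ht' h
          simp only [coe_filter, Set.mem_ofPred_eq] at ht ht'
          simp only [Prod.mk.injEq] at h
          have e1 := (hmem t ht.1).2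
          have e2 := (hmem t' ht'.1).2
          ext
          · exact h.1
          · exact h.2
          · omega
      have c2 : ((Nd Q q).filter (fun t => t.1.2 ∈ U)).card ≤ U.card * Q.card := by
        rw [← card_product]
        refine card_le_card_of_injOn (fun t => (t.1.2, t.1.1)) ?_ ?_
        · intro t ht
          simp only [coe_filter, Set.mem_ofPred_eq] at ht
          simp only [coe_product, Set.mem_prod, mem_coe]
          exact ⟨ht.2, (hmem t ht.1).1.1⟩
        · intro t ht t' ht' h
          simp only [coe_filter, Set.mem_ofPred_eq] at ht ht'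
          simp only [Prod.mk.injEq] at h
          have e1 := (hmem t ht.1).2
          have e2 := (hmem t' ht'.1).2
          ext
          · exact h.2
          · exact h.1
          · omega
      have c3 : ((Nd Q q).filter (fun t => t.2 ∈ U)).card ≤ U.card * Q.card := by
        rw [← card_product]
        refine card_le_card_of_injOn (fun t => (t.2, t.1.1)) ?_ ?_
        · intro t ht
          simp only [coe_filter, Set.mem_ofPred_eq] at ht
          simp only [coe_product, Set.mem_prod, mem_coe]
          exact ⟨ht.2, (hmem t ht.1).1.1⟩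
        · intro t ht t' ht' h
          simp only [coe_filter, Set.mem_ofPred_eq] at ht ht'
          simp only [Prod.mk.injEq] at h
          have e1 := (hmem t ht.1).2
          have e2 := (hmem t' ht'.1).2
          ext
          · exact h.2
          · have := h.1; have := h.2; omega
          · exact h.1
      have hc := card_le_card hsub
      have u1 := card_union_le ((Nd Q q).filter (fun t => t.1.1 ∈ U))
          ((Nd Q q).filter (fun t => t.1.2 ∈ U) ∪ (Nd Q q).filter (fun t => t.2 ∈ U))
      have u2 := card_union_le ((Nd Q q).filter (fun t => t.1.2 ∈ U))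
          ((Nd Q q).filter (fun t => t.2 ∈ U))
      have hb : U.card * Q.card ≤ 3 * n * Q.card := Nat.mul_le_mul_right _ hUc
      have : 9 * n * Q.card = 3 * (3 * n * Q.card) := by ring
      omega
    obtain ⟨t, ht, ha, hb, hc⟩ := hex
    rcases t with ⟨⟨a, b⟩, c⟩
    simp only [Nd, Sol, mem_filter, mem_product] at ht
    simp only at ha hb hc
    obtain ⟨⟨⟨⟨haQ, hbQ⟩, hcQ⟩, he⟩, hab, hac, hbc, haq, hbq, hcq⟩ := ht
    refine ⟨insert a (insert b (insert c U)), ?_, ?_, B + c, ?_⟩
    · intro x hx
      simp only [mem_insert] at hx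
      rcases hx with rfl | rfl | rfl | hx
      · exact mem_erase.mpr ⟨haq, haQ⟩
      · exact mem_erase.mpr ⟨hbq, hbQ⟩
      · exact mem_erase.mpr ⟨hcq, hcQ⟩
      · exact hU hx
    · have h1 := card_insert_le a (insert b (insert c U))
      have h2 := card_insert_le b (insert c U)
      have h3 := card_insert_le c U
      omega
    · intro j hj
      by_cases hjn : j ≤ n
      · obtain ⟨S, hS, hSs⟩ := hB j hjn
        refine ⟨insert c S, ?_, ?_⟩
        · exact (insert_subset_insert c hS).trans ((subset_insert b _).trans (subset_insert a _))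
        · rw [sum_insert (fun h => hc (hS h)), hSs]; ring
      · have hj' : j = n + 1 := by omega
        obtain ⟨S, hS, hSs⟩ := hB n le_rfl
        have hbS : b ∉ S := fun h => hb (hS h)
        have haS : a ∉ insert b S := by
          rw [mem_insert]
          push Not
          exact ⟨hab, fun h => ha (hS h)⟩
        refine ⟨insert a (insert b S), ?_, ?_⟩
        · exact insert_subset_insert a (insert_subset_insert b (hS.trans (subset_insert c U)))
        · rw [sum_insert haS, sum_insert hbS, hSs, hj']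
          have : (n + 1) * q = n * q + q := by ring
          omega

end Run7.h419
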