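import Mathlib
import Pool.Agent.Run7.h419.WeirdA
import Pool.Agent.Run7.h419.WeirdB
import Pool.Agent.Run7.h419.WeirdC

set_option autoImplicit false

namespace Run7.h419

open Finset

/-- Products of two distinct members of `Q`. -/
def PP (Q : Finset ℕ) : Finset ℕ := (Q.powersetCard 2).image (fun s => ∏ p ∈ s, p)

theorem mem_PP (Q : Finset ℕ) (y : ℕ) :
    y ∈ PP Q ↔ ∃ a ∈ Q, ∃ b ∈ Q, a ≠ b ∧ y = a * b := by
  classical
  rw [PP, mem_image]
  constructor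
  · rintro ⟨s, hs, rfl⟩
    rw [mem_powersetCard, card_eq_two] at hs
    obtain ⟨hs1, a, b, hab, rfl⟩ := hs
    refine ⟨a, hs1 (by simp), b, hs1 (by simp), hab, ?_⟩
    rw [prod_pair hab]
  · rintro ⟨a, ha, b, hb, hab, rfl⟩
    refine ⟨{a, b}, ?_, ?_⟩
    · rw [mem_powersetCard, card_pair hab]
      refine ⟨?_, rfl⟩
      intro x hx
      simp only [mem_insert, mem_singleton] at hx
      rcases hx with rfl | rfl <;> assumption
    · rw [prod_pair hab]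

theorem card_PP (Q : Finset ℕ) (hQ : ∀ p ∈ Q, p.Prime) : (PP Q).card = Q.card.choose 2 := by
  classical
  rw [PP, card_image_of_injOn, card_powersetCard]
  intro s hs t ht h
  rw [mem_coe, mem_powersetCard] at hs ht
  have h1 : (∏ p ∈ s, p).primeFactors = s := Nat.primeFactors_prod (fun p hp => hQ p (hs.1 hp))
  have h2 : (∏ p ∈ t, p).primeFactors = t := Nat.primeFactors_prod (fun p hp => hQ p (ht.1 hp))
  simp only at h
  rw [← h1, h, h2]

theorem two_mul_choose_two (k : ℕ) : 2 * k.choose 2 = k * (k - 1) := by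
  rw [Nat.choose_two_right]
  exact Nat.mul_div_cancel' (Nat.even_mul_pred_self k).two_dvd

theorem sq_not_dvd (Q : Finset ℕ) (M : ℕ) (hQ : ∀ p ∈ Q, p.Prime) (hM : ∀ p ∈ Q, ¬ p ∣ M)
    {p : ℕ} (hp : p ∈ Q) : ¬ p * p ∣ M * ∏ x ∈ Q, x := by
  classical
  rw [← mul_prod_erase Q (fun x => x) hp]
  intro h
  have hpp := hQ p hp
  have h1 : p * p ∣ p * (M * ∏ x ∈ Q.erase p, x) := by
    have : M * (p * ∏ x ∈ Q.erase p, x) = p * (M * ∏ x ∈ Q.erase p, x) := by ring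
    rwa [this] at h
  have h2 : p ∣ M * ∏ x ∈ Q.erase p, x := (Nat.mul_dvd_mul_iff_left hpp.pos).mp h1
  rcases (Nat.Prime.dvd_mul hpp).mp h2 with h3 | h3
  · exact hM p hp h3
  · rw [Prime.dvd_finsetProd_iff hpp.prime] at h3
    obtain ⟨x, hx, hpx⟩ := h3
    have hx' := mem_erase.mp hx
    exact hx'.1 ((Nat.prime_dvd_prime_iff_eq hpp (hQ x hx'.2)).mp hpx).symm

theorem dvd_NN (Q : Finset ℕ) (M : ℕ) {p : ℕ} (hp : p ∈ Q) : p ∣ M * ∏ x ∈ Q, x :=
  (dvd_prod_of_mem (fun x => x) hp).mul_left M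

theorem mul_pair_dvd (Q : Finset ℕ) (M c a b : ℕ) (hQ : ∀ p ∈ Q, p.Prime)
    (hc : c ∣ M * ∏ x ∈ Q, x) (ha : a ∈ Q) (hb : b ∈ Q) (hab : a ≠ b) (hac : ¬ a ∣ c)
    (hbc : ¬ b ∣ c) : c * (a * b) ∣ M * ∏ x ∈ Q, x := by
  have hap := hQ a ha
  have hbp := hQ b hb
  have h1 : Nat.Coprime a b := (Nat.coprime_primes hap hbp).mpr hab
  have h2 : a * b ∣ M * ∏ x ∈ Q, x :=
    Nat.Coprime.mul_dvd_of_dvd_of_dvd h1 (dvd_NN Q M ha) (dvd_NN Q M hb)
  have h3 : Nat.Coprime c (a * b) := by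
    refine Nat.Coprime.mul_right ?_ ?_
    · exact ((Nat.Prime.coprime_iff_not_dvd hap).mpr hac).symm
    · exact ((Nat.Prime.coprime_iff_not_dvd hbp).mpr hbc).symm
  exact Nat.Coprime.mul_dvd_of_dvd_of_dvd h3 hc h2

theorem exists_smooth_divisor (d s X B : ℕ) (hsd : s ∣ d) (hsX : s < X) (hXd : X ≤ d)
    (hB : ∀ p, p.Prime → p ∣ d → p < B) :
    ∃ g, s ∣ g ∧ g ∣ d ∧ X ≤ g ∧ g < B * X := by
  classical
  have hd : 0 < d := by omega
  have hex : ∃ g, s ∣ g ∧ g ∣ d ∧ X ≤ g := ⟨d, hsd, dvd_rfl, hXd⟩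
  let g := Nat.find hex
  have hg : s ∣ g ∧ g ∣ d ∧ X ≤ g := Nat.find_spec hex
  have hgmin : ∀ m, m < g → ¬ (s ∣ m ∧ m ∣ d ∧ X ≤ m) := fun m hm => Nat.find_min hex hm
  refine ⟨g, hg.1, hg.2.1, hg.2.2, ?_⟩
  obtain ⟨r, hr⟩ := hg.1
  have hg0 : 0 < g := Nat.pos_of_dvd_of_pos hg.2.1 hd
  have hr1 : r ≠ 1 := by
    intro h
    rw [h, mul_one] at hr
    omega
  obtain ⟨p, hp, hpr⟩ := Nat.exists_prime_and_dvd hr1
  obtain ⟨t, ht⟩ := hpr
  have hpd : p ∣ d := by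
    refine dvd_trans ?_ hg.2.1
    rw [hr, ht]
    exact ⟨s * t, by ring⟩
  have hpB := hB p hp hpd
  have hgst : g = p * (s * t) := by rw [hr, ht]; ring
  have hst0 : 0 < s * t := by
    rcases Nat.eq_zero_or_pos (s * t) with h | h
    · rw [h, mul_zero] at hgst; omega
    · exact h
  have hlt : s * t < g := by
    rw [hgst]
    calc s * t = 1 * (s * t) := (one_mul _).symm
      _ < p * (s * t) := Nat.mul_lt_mul_of_pos_right hp.one_lt hst0
  have hnot := hgmin (s * t) hlt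
  have hstX : s * t < X := by
    by_contra hcon
    push Not at hcon
    refine hnot ⟨dvd_mul_right s t, ?_, hcon⟩
    refine dvd_trans ?_ hg.2.1
    rw [hgst]
    exact dvd_mul_left _ _
  rw [hgst]
  calc p * (s * t) < p * X := Nat.mul_lt_mul_of_pos_left hstX hp.pos
    _ ≤ B * X := Nat.mul_le_mul_right _ hpB.le

end Run7.h419
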