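import Mathlib
import Pool.Agent.Run7.h419.WeirdD

set_option autoImplicit false

namespace Run7.h419

open Finset

/-- Divisors of `M * ∏ Q` missing some prime of `Q`. -/
def DD (Q : Finset ℕ) (M : ℕ) : Finset ℕ :=
  (M * ∏ x ∈ Q, x).divisors.filter (fun d => ∃ p ∈ Q, ¬ p ∣ d)

theorem NN_pos (Q : Finset ℕ) (M : ℕ) (hQ : ∀ p ∈ Q, p.Prime) (hM0 : 0 < M) :
    0 < M * ∏ x ∈ Q, x :=
  Nat.mul_pos hM0 (prod_pos (fun p hp => (hQ p hp).pos))

theorem prime_dvd_NN (Q : Finset ℕ) (M z : ℕ) (hQ : ∀ p ∈ Q, p.Prime)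
    (hQz : ∀ p ∈ Q, z ≤ p ∧ p < 2 * z) (hM : ∀ p, p.Prime → p ∣ M → p < z)
    {p : ℕ} (hp : p.Prime) (hpN : p ∣ M * ∏ x ∈ Q, x) : p < 2 * z := by
  rcases (Nat.Prime.dvd_mul hp).mp hpN with h | h
  · have := hM p hp h; omega
  · rw [Prime.dvd_finsetProd_iff hp.prime] at h
    obtain ⟨x, hx, hpx⟩ := h
    have := (Nat.prime_dvd_prime_iff_eq hp (hQ x hx)).mp hpx
    rw [this]
    exact (hQz x hx).2

theorem pair_lt {z a b : ℕ} (ha : a < 2 * z) (hb : b < 2 * z) : a * b < 4 * z ^ 2 := by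
  calc a * b < (2 * z) * (2 * z) := Nat.mul_lt_mul'' ha hb
    _ = 4 * z ^ 2 := by ring

theorem pair_ge {z a b : ℕ} (ha : z ≤ a) (hb : z ≤ b) : z ^ 2 ≤ a * b := by
  calc z ^ 2 = z * z := by ring
    _ ≤ a * b := Nat.mul_le_mul ha hb

section
variable (z : ℕ) (Q : Finset ℕ) (M q : ℕ)
  (hQ : ∀ p ∈ Q, p.Prime) (hQz : ∀ p ∈ Q, z ≤ p ∧ p < 2 * z)
  (hM0 : 0 < M) (hM : ∀ p, p.Prime → p ∣ M → p < z) (hq : q ∈ Q)
  (U1 U2 P : Finset ℕ) (hU1 : U1 ⊆ Q.erase q)
  (hU2 : U2 ⊆ (PP (Q.erase q)).image (fun y => q * y))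
  (hP : P ⊆ PP (Q.erase q)) (hPc : P.card ≤ 2 * z)
  (hk : 200 * z ≤ Q.card ^ 2) (hk12 : 12 ≤ Q.card) (hz : 10 ≤ z)

include hQ hQz hM0 hM hq hU1 hU2 hP hPc hk hk12 hz

theorem slack_caseA (d : ℕ) (hd : d ∈ DD Q M \ (U1 ∪ (U2 ∪ P))) (hd4 : 4 * z ^ 2 < d)
    (hA : 2 * (Q.filter (· ∣ d)).card ≤ Q.card) :
    d ≤ ∑ x ∈ (DD Q M \ (U1 ∪ (U2 ∪ P))).filter (· < d), x := by
  classical
  have hN0 := NN_pos Q M hQ hM0
  have hdD : d ∈ DD Q M := (mem_sdiff.mp hd).1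
  rw [DD, mem_filter, Nat.mem_divisors] at hdD
  have hdN := hdD.1.1
  have hd0 : 0 < d := by omega
  have hMQ : ∀ p ∈ Q, ¬ p ∣ M := by
    intro p hp h
    have h1 := hM p (hQ p hp) h
    have h2 := (hQz p hp).1
    omega
  have hqp := hQ q hq
  have hqz := hQz q hq
  have hz2 : 2 * z < 4 * z ^ 2 := by nlinarith
  obtain ⟨s, hsd, hsX, hsq⟩ : ∃ s, s ∣ d ∧ s < 4 * z ^ 2 ∧ (q ∣ d → q ∣ s) := by
    by_cases h : q ∣ d
    · exact ⟨q, h, by omega, fun _ => dvd_rfl⟩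
    · exact ⟨1, one_dvd _, by omega, fun h' => absurd h' h⟩
  obtain ⟨g, hsg, hgd, hXg, hgB⟩ := exists_smooth_divisor d s (4 * z ^ 2) (2 * z) hsd hsX hd4.le
    (fun p hp hpd => prime_dvd_NN Q M z hQ hQz hM hp (hpd.trans hdN))
  obtain ⟨c, hc⟩ := hgd
  have hc0 : 0 < c := by
    rcases Nat.eq_zero_or_pos c with h | h
    · rw [h, mul_zero] at hc; omega
    · exact h
  have hcd : c ∣ d := ⟨g, by rw [hc]; ring⟩
  have hcN : c ∣ M * ∏ x ∈ Q, x := hcd.trans hdN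
  have hqc : ¬ q ∣ c := by
    intro h
    have h1 : q ∣ g := (hsq (h.trans hcd)).trans hsg
    have h2 : q * q ∣ d := by rw [hc]; exact mul_dvd_mul h1 h
    exact sq_not_dvd Q M hQ hMQ hq (h2.trans hdN)
  set Qf := (Q.erase q).filter (fun p => ¬ p ∣ c) with hQf
  have hQfmem : ∀ p ∈ Qf, p ∈ Q ∧ p ≠ q ∧ ¬ p ∣ c := by
    intro p hp
    rw [hQf, mem_filter, mem_erase] at hp
    exact ⟨hp.1.2, hp.1.1, hp.2⟩
  have hQfcard : Q.card ≤ Qf.card + 1 + (Q.filter (· ∣ d)).card := by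
    have h1 : ((Q.erase q).filter (fun p => p ∣ c)).card + Qf.card = (Q.erase q).card :=
      card_filter_add_card_filter_not (s := Q.erase q) (fun p => p ∣ c)
    have h2 : ((Q.erase q).filter (fun p => p ∣ c)).card ≤ (Q.filter (· ∣ d)).card := by
      refine card_le_card ?_
      intro p hp
      rw [mem_filter, mem_erase] at hp
      rw [mem_filter]
      exact ⟨hp.1.2, hp.2.trans hcd⟩
    rw [card_erase_of_mem hq] at h1
    omega
  have hPPQf : 10 * z ≤ (PP Qf).card := by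
    rw [card_PP Qf (fun p hp => hQ p (hQfmem p hp).1)]
    have h1 := two_mul_choose_two Qf.card
    obtain ⟨f, hf⟩ : ∃ f, Qf.card = f + 1 := ⟨Qf.card - 1, by omega⟩
    rw [hf] at h1 ⊢
    rw [Nat.add_sub_cancel] at h1
    have h2 : Q.card ≤ 2 * f + 4 := by omega
    nlinarith
  set F := ((PP Qf).image (fun y => c * y)) \ P with hF
  have hFcard : 8 * z ≤ F.card := by
    have h1 : ((PP Qf).image (fun y => c * y)).card = (PP Qf).card := by
      apply card_image_of_injective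
      intro x y hxy
      exact Nat.eq_of_mul_eq_mul_left hc0 hxy
    have h2 := le_card_sdiff P ((PP Qf).image (fun y => c * y))
    rw [h1] at h2
    rw [hF]
    omega
  have hFmem : ∀ x ∈ F, x ∈ (DD Q M \ (U1 ∪ (U2 ∪ P))).filter (· < d) ∧ c * z ^ 2 ≤ x := by
    intro x hx
    rw [hF, mem_sdiff, mem_image] at hx
    obtain ⟨⟨y, hy, rfl⟩, hxP⟩ := hx
    rw [mem_PP] at hy
    obtain ⟨a, ha, b, hb, hab, rfl⟩ := hy
    have ha' := hQfmem a ha
    have hb' := hQfmem b hb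
    have haz := hQz a ha'.1
    have hbz := hQz b hb'.1
    have hap := hQ a ha'.1
    have hbp := hQ b hb'.1
    have hxN : c * (a * b) ∣ M * ∏ x ∈ Q, x :=
      mul_pair_dvd Q M c a b hQ hcN ha'.1 hb'.1 hab ha'.2.2 hb'.2.2
    have hqx : ¬ q ∣ c * (a * b) := by
      intro h
      rcases (Nat.Prime.dvd_mul hqp).mp h with h | h
      · exact hqc h
      · rcases (Nat.Prime.dvd_mul hqp).mp h with h | h
        · exact ha'.2.1 ((Nat.prime_dvd_prime_iff_eq hqp hap).mp h).symm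
        · exact hb'.2.1 ((Nat.prime_dvd_prime_iff_eq hqp hbp).mp h).symm
    refine ⟨?_, ?_⟩
    · rw [mem_filter, mem_sdiff, DD, mem_filter, Nat.mem_divisors]
      refine ⟨⟨⟨⟨hxN, hN0.ne'⟩, q, hq, hqx⟩, ?_⟩, ?_⟩
      · rw [mem_union, mem_union]
        rintro (h | h | h)
        · -- x ∈ U1 is prime
          have h1 := hU1 h
          rw [mem_erase] at h1
          have h2 := hQ _ h1.2
          have h3 : a ∣ c * (a * b) := ⟨c * b, by ring⟩
          have h4 : a = c * (a * b) := (Nat.prime_dvd_prime_iff_eq hap h2).mp h3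
          have h5 : b ∣ c * (a * b) := ⟨c * a, by ring⟩
          have h6 : b = c * (a * b) := (Nat.prime_dvd_prime_iff_eq hbp h2).mp h5
          exact hab (h4.trans h6.symm)
        · have h1 := hU2 h
          rw [mem_image] at h1
          obtain ⟨y, _, hy⟩ := h1
          exact hqx ⟨y, hy.symm⟩
        · exact hxP h
      · have h1 : a * b < 4 * z ^ 2 := pair_lt haz.2 hbz.2
        calc c * (a * b) < c * (4 * z ^ 2) := Nat.mul_lt_mul_of_pos_left h1 hc0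
          _ ≤ c * g := Nat.mul_le_mul_left _ hXg
          _ = d := by rw [hc]; ring
    · exact Nat.mul_le_mul_left _ (pair_ge haz.1 hbz.1)
  have hsub : F ⊆ (DD Q M \ (U1 ∪ (U2 ∪ P))).filter (· < d) := fun x hx => (hFmem x hx).1
  have h1 : ∑ x ∈ F, x ≤ ∑ x ∈ (DD Q M \ (U1 ∪ (U2 ∪ P))).filter (· < d), x :=
    sum_le_sum_of_subset hsub
  have h2 : F.card • (c * z ^ 2) ≤ ∑ x ∈ F, x := card_nsmul_le_sum F _ _ (fun x hx => (hFmem x hx).2)
  rw [smul_eq_mul] at h2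
  have h3 : 8 * z * (c * z ^ 2) ≤ F.card * (c * z ^ 2) := Nat.mul_le_mul_right _ hFcard
  have h4 : d ≤ 8 * z * (c * z ^ 2) := by
    rw [hc]
    calc g * c ≤ (2 * z * (4 * z ^ 2)) * c := Nat.mul_le_mul_right _ hgB.le
      _ = 8 * z * (c * z ^ 2) := by ring
  omega

theorem slack_caseB (d : ℕ) (hd : d ∈ DD Q M \ (U1 ∪ (U2 ∪ P)))
    (hB : Q.card < 2 * (Q.filter (· ∣ d)).card) :
    d ≤ ∑ x ∈ (DD Q M \ (U1 ∪ (U2 ∪ P))).filter (· < d), x := by
  classical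
  have hN0 := NN_pos Q M hQ hM0
  have hdD : d ∈ DD Q M := (mem_sdiff.mp hd).1
  rw [DD, mem_filter, Nat.mem_divisors] at hdD
  have hdN := hdD.1.1
  obtain ⟨b0, hb0, hb0d⟩ := hdD.2
  have hd0 : 0 < d := Nat.pos_of_dvd_of_pos hdN hN0
  have hMQ : ∀ p ∈ Q, ¬ p ∣ M := by
    intro p hp h
    have h1 := hM p (hQ p hp) h
    have h2 := (hQz p hp).1
    omega
  set Qd := Q.filter (· ∣ d) with hQd
  have hQdmem : ∀ p ∈ Qd, p ∈ Q ∧ p ∣ d := by
    intro p hp
    rw [hQd, mem_filter] at hp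
    exact hp
  have hdz : z ^ 6 ≤ d := by
    have h1 : ∏ p ∈ Qd, p ∣ d := prod_primes_dvd d (fun p hp => (hQ p (hQdmem p hp).1).prime)
      (fun p hp => (hQdmem p hp).2)
    have h2 : z ^ Qd.card ≤ ∏ p ∈ Qd, p := by
      rw [← prod_const]
      exact prod_le_prod' (fun p hp => (hQz p (hQdmem p hp).1).1)
    have h3 : z ^ 6 ≤ z ^ Qd.card := Nat.pow_le_pow_right (by omega) (by omega)
    exact h3.trans (h2.trans (Nat.le_of_dvd hd0 h1))
  have hPP : 4 * z ≤ (PP Qd).card := by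
    rw [card_PP Qd (fun p hp => hQ p (hQdmem p hp).1)]
    have h1 := two_mul_choose_two Qd.card
    obtain ⟨f, hf⟩ : ∃ f, Qd.card = f + 1 := ⟨Qd.card - 1, by omega⟩
    rw [hf] at h1 ⊢
    rw [Nat.add_sub_cancel] at h1
    have h2 : Q.card ≤ 2 * f + 2 := by omega
    nlinarith
  have hymem : ∀ y ∈ PP Qd, y ∣ d ∧ z ^ 2 ≤ y ∧ y < 4 * z ^ 2 ∧
      ∃ a ∈ Q, a ∣ y ∧ a ∣ d := by
    intro y hy
    rw [mem_PP] at hy
    obtain ⟨a, ha, b, hb, hab, rfl⟩ := hy
    have ha' := hQdmem a ha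
    have hb' := hQdmem b hb
    have haz := hQz a ha'.1
    have hbz := hQz b hb'.1
    have hcop : Nat.Coprime a b := (Nat.coprime_primes (hQ a ha'.1) (hQ b hb'.1)).mpr hab
    refine ⟨Nat.Coprime.mul_dvd_of_dvd_of_dvd hcop ha'.2 hb'.2, pair_ge haz.1 hbz.1,
      pair_lt haz.2 hbz.2, a, ha'.1, dvd_mul_right a b, ha'.2⟩
  set F := (PP Qd).image (fun y => d / y * b0) with hF
  have hb0z := hQz b0 hb0
  have hb0p := hQ b0 hb0
  have hFcard : F.card = (PP Qd).card := by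
    apply card_image_of_injOn
    intro y hy y' hy' h
    simp only at h
    have hy1 := (hymem y hy).1
    have hy1' := (hymem y' hy').1
    have h1 : d / y = d / y' := Nat.eq_of_mul_eq_mul_right hb0p.pos h
    have h2 : d / y * y = d := Nat.div_mul_cancel hy1
    have h3 : d / y' * y' = d := Nat.div_mul_cancel hy1'
    rw [← h1] at h3
    have h4 : 0 < d / y := by
      rcases Nat.eq_zero_or_pos (d / y) with h | h
      · rw [h] at h2; omega
      · exact h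
    exact Nat.eq_of_mul_eq_mul_left h4 (h2.trans h3.symm)
  have hFmem : ∀ x ∈ F, x ∈ (DD Q M \ (U1 ∪ (U2 ∪ P))).filter (· < d) ∧ d ≤ 4 * z * x := by
    intro x hx
    rw [hF, mem_image] at hx
    obtain ⟨y, hy, rfl⟩ := hx
    obtain ⟨hyd, hyz, hyz4, a, haQ, hay, had⟩ := hymem y hy
    set e := d / y with he
    have hey : e * y = d := Nat.div_mul_cancel hyd
    have he0 : 0 < e := by
      rcases Nat.eq_zero_or_pos e with h | h
      · rw [h] at hey; omega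
      · exact h
    have hed : e ∣ d := ⟨y, hey.symm⟩
    have hap := hQ a haQ
    have hab0 : a ≠ b0 := by
      intro h
      exact hb0d (h ▸ had)
    have hae : ¬ a ∣ e := by
      intro h
      have : a * a ∣ d := by rw [← hey]; exact mul_dvd_mul h hay
      exact sq_not_dvd Q M hQ hMQ haQ (this.trans hdN)
    have hxN : e * b0 ∣ M * ∏ x ∈ Q, x := by
      have h1 : Nat.Coprime e b0 :=
        ((Nat.Prime.coprime_iff_not_dvd hb0p).mpr (fun h => hb0d (h.trans hed))).symm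
      exact Nat.Coprime.mul_dvd_of_dvd_of_dvd h1 (hed.trans hdN) (dvd_NN Q M hb0)
    have hax : ¬ a ∣ e * b0 := by
      intro h
      rcases (Nat.Prime.dvd_mul hap).mp h with h | h
      · exact hae h
      · exact hab0 ((Nat.prime_dvd_prime_iff_eq hap hb0p).mp h)
    have hlt : e * b0 < d := by
      rw [← hey]
      refine Nat.mul_lt_mul_of_pos_left ?_ he0
      nlinarith
    have hge : d ≤ 4 * z * (e * b0) := by
      rw [← hey]
      calc e * y ≤ e * (4 * z ^ 2) := Nat.mul_le_mul_left _ hyz4.le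
        _ = 4 * z * (e * z) := by ring
        _ ≤ 4 * z * (e * b0) := Nat.mul_le_mul_left _ (Nat.mul_le_mul_left _ hb0z.1)
    have hbig : 8 * z ^ 3 ≤ e * b0 := by
      have h1 : z ^ 6 ≤ 4 * z * (e * b0) := hdz.trans hge
      have h2 : 4 * z * (8 * z ^ 3) ≤ z ^ 6 := by
        have h3 : 4 * z * (8 * z ^ 3) = 32 * z ^ 4 := by ring
        have h4 : z ^ 6 = z ^ 2 * z ^ 4 := by ring
        rw [h3, h4]
        refine Nat.mul_le_mul_right _ ?_
        nlinarith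
      exact Nat.le_of_mul_le_mul_left (h2.trans h1) (by omega)
    refine ⟨?_, hge⟩
    rw [mem_filter, mem_sdiff, DD, mem_filter, Nat.mem_divisors]
    refine ⟨⟨⟨⟨hxN, hN0.ne'⟩, a, haQ, hax⟩, ?_⟩, hlt⟩
    have hz3 : 4 * z ^ 2 ≤ 8 * z ^ 3 := by
      have : 8 * z ^ 3 = 8 * z * z ^ 2 := by ring
      rw [this]
      refine Nat.mul_le_mul_right _ ?_
      omega
    have hPPlt : ∀ y ∈ PP (Q.erase q), y < 4 * z ^ 2 := by
      intro y hy
      rw [mem_PP] at hy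
      obtain ⟨a, ha, b, hb, _, rfl⟩ := hy
      have haz := hQz a (mem_of_mem_erase ha)
      have hbz := hQz b (mem_of_mem_erase hb)
      exact pair_lt haz.2 hbz.2
    rw [mem_union, mem_union]
    rintro (h | h | h)
    · have h1 := hU1 h
      have h2 := (hQz _ (mem_of_mem_erase h1)).2
      nlinarith
    · have h1 := hU2 h
      rw [mem_image] at h1
      obtain ⟨y, hy, hyx⟩ := h1
      have h2 := hPPlt y hy
      have h3 := (hQz q hq).2
      have h4 : q * y < 2 * z * (4 * z ^ 2) := by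
        calc q * y ≤ 2 * z * y := Nat.mul_le_mul_right _ h3.le
          _ < 2 * z * (4 * z ^ 2) := Nat.mul_lt_mul_of_pos_left h2 (by omega)
      have h5 : 2 * z * (4 * z ^ 2) = 8 * z ^ 3 := by ring
      omega
    · have h1 := hPPlt _ (hP h)
      omega
  have hsub : F ⊆ (DD Q M \ (U1 ∪ (U2 ∪ P))).filter (· < d) := fun x hx => (hFmem x hx).1
  have h1 : ∑ x ∈ F, x ≤ ∑ x ∈ (DD Q M \ (U1 ∪ (U2 ∪ P))).filter (· < d), x :=
    sum_le_sum_of_subset hsub
  have h2 : F.card • d ≤ ∑ x ∈ F, 4 * z * x := card_nsmul_le_sum F _ _ (fun x hx => (hFmem x hx).2)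
  rw [smul_eq_mul, ← mul_sum, hFcard] at h2
  have h3 : 4 * z * d ≤ (PP Qd).card * d := Nat.mul_le_mul_right _ hPP
  have h4 : 4 * z * d ≤ 4 * z * ∑ x ∈ F, x := h3.trans h2
  have h5 : d ≤ ∑ x ∈ F, x := Nat.le_of_mul_le_mul_left h4 (by omega)
  exact h5.trans h1

theorem slack_cond (d : ℕ) (hd : d ∈ DD Q M \ (U1 ∪ (U2 ∪ P))) :
    d ≤ 4 * z ^ 2 + ∑ x ∈ (DD Q M \ (U1 ∪ (U2 ∪ P))).filter (· < d), x := by
  by_cases h4 : d ≤ 4 * z ^ 2
  · omega
  · by_cases hA : 2 * (Q.filter (· ∣ d)).card ≤ Q.card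
    · have := slack_caseA z Q M q hQ hQz hM0 hM hq U1 U2 P hU1 hU2 hP hPc hk hk12 hz d hd
        (by omega) hA
      omega
    · have := slack_caseB z Q M q hQ hQz hM0 hM hq U1 U2 P hU1 hU2 hP hPc hk hk12 hz d hd
        (by omega)
      omega

end

end Run7.h419
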