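import Mathlib
import Pool.Agent.Run7.h419.WeirdE

set_option autoImplicit false

namespace Run7.h419

open Finset

theorem not_dvd_pair {q a b : ℕ} (hq : q.Prime) (ha : a.Prime) (hb : b.Prime) (hqa : a ≠ q)
    (hqb : b ≠ q) : ¬ q ∣ a * b := by
  intro h
  rcases (Nat.Prime.dvd_mul hq).mp h with h | h
  · exact hqa ((Nat.prime_dvd_prime_iff_eq hq ha).mp h).symm
  · exact hqb ((Nat.prime_dvd_prime_iff_eq hq hb).mp h).symm

/-- Elements of a pairwise union: membership of the reserved sets in `DD`. -/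
theorem reserved_sub (Q : Finset ℕ) (M q : ℕ) (hQ : ∀ p ∈ Q, p.Prime) (hM0 : 0 < M)
    (hq : q ∈ Q) (hk : 12 ≤ Q.card) :
    Q.erase q ⊆ DD Q M ∧ PP (Q.erase q) ⊆ DD Q M ∧
      (PP (Q.erase q)).image (fun y => q * y) ⊆ DD Q M := by
  classical
  have hN0 := NN_pos Q M hQ hM0
  have hqp := hQ q hq
  refine ⟨?_, ?_, ?_⟩
  · intro p hp
    have hp' := mem_erase.mp hp
    rw [DD, mem_filter, Nat.mem_divisors]
    refine ⟨⟨dvd_NN Q M hp'.2, hN0.ne'⟩, q, hq, ?_⟩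
    intro h
    exact hp'.1 ((Nat.prime_dvd_prime_iff_eq hqp (hQ p hp'.2)).mp h).symm
  · intro y hy
    rw [mem_PP] at hy
    obtain ⟨a, ha, b, hb, hab, rfl⟩ := hy
    have ha' := mem_erase.mp ha
    have hb' := mem_erase.mp hb
    rw [DD, mem_filter, Nat.mem_divisors]
    refine ⟨⟨?_, hN0.ne'⟩, q, hq, not_dvd_pair hqp (hQ a ha'.2) (hQ b hb'.2) ha'.1 hb'.1⟩
    have h1 : Nat.Coprime a b := (Nat.coprime_primes (hQ a ha'.2) (hQ b hb'.2)).mpr hab
    exact Nat.Coprime.mul_dvd_of_dvd_of_dvd h1 (dvd_NN Q M ha'.2) (dvd_NN Q M hb'.2)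
  · intro x hx
    rw [mem_image] at hx
    obtain ⟨y, hy, rfl⟩ := hx
    rw [mem_PP] at hy
    obtain ⟨a, ha, b, hb, hab, rfl⟩ := hy
    have ha' := mem_erase.mp ha
    have hb' := mem_erase.mp hb
    have hap := hQ a ha'.2
    have hbp := hQ b hb'.2
    obtain ⟨p, hp⟩ : (((Q.erase q).erase a).erase b).Nonempty := by
      rw [← card_pos]
      have h1 := pred_card_le_card_erase (s := Q) (a := q)
      have h2 := pred_card_le_card_erase (s := Q.erase q) (a := a)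
      have h3 := pred_card_le_card_erase (s := (Q.erase q).erase a) (a := b)
      omega
    rw [mem_erase, mem_erase, mem_erase] at hp
    obtain ⟨hpb, hpa, hpq, hpQ⟩ := hp
    have hpp := hQ p hpQ
    rw [DD, mem_filter, Nat.mem_divisors]
    refine ⟨⟨?_, hN0.ne'⟩, p, hpQ, ?_⟩
    · refine mul_pair_dvd Q M q a b hQ (dvd_NN Q M hq) ha'.2 hb'.2 hab ?_ ?_
      · intro h; exact ha'.1 ((Nat.prime_dvd_prime_iff_eq hap hqp).mp h)
      · intro h; exact hb'.1 ((Nat.prime_dvd_prime_iff_eq hbp hqp).mp h)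
    · intro h
      rcases (Nat.Prime.dvd_mul hpp).mp h with h | h
      · exact hpq ((Nat.prime_dvd_prime_iff_eq hpp hqp).mp h)
      · exact not_dvd_pair hpp hap hbp (Ne.symm hpa) (Ne.symm hpb) h

theorem key_block (z L : ℕ) (Q : Finset ℕ) (M : ℕ)
    (hQ : ∀ p ∈ Q, p.Prime) (hQz : ∀ p ∈ Q, z ≤ p ∧ p < 2 * z)
    (hM0 : 0 < M) (hM : ∀ p, p.Prime → p ∣ M → p < z)
    (hL : 1 ≤ L) (hden : z ≤ L * Q.card) (hbig : 200000 * L ^ 6 ≤ z)
    (T : ℕ) (hT1 : z ^ 6 ≤ T) (hT2 : T + z ^ 6 ≤ ∑ d ∈ DD Q M, d) :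
    ∃ S ⊆ DD Q M, ∑ d ∈ S, d = T := by
  classical
  have hk5 : 200000 * L ^ 5 ≤ Q.card := by
    have h1 : L * (200000 * L ^ 5) ≤ L * Q.card := by
      calc L * (200000 * L ^ 5) = 200000 * L ^ 6 := by ring
        _ ≤ z := hbig
        _ ≤ L * Q.card := hden
    exact Nat.le_of_mul_le_mul_left h1 (by omega)
  have hL1 : L ≤ L ^ 5 := Nat.le_self_pow (by norm_num) L
  have hL2 : L ^ 2 ≤ L ^ 5 := Nat.pow_le_pow_right hL (by norm_num)
  have hL6 : 1 ≤ L ^ 6 := Nat.one_le_pow _ _ hL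
  have hz10 : 200000 ≤ z := by omega
  have hk12 : 200000 ≤ Q.card := by omega
  set k := Q.card with hkdef
  have hkL : 200 * L ≤ k := by omega
  have hk200 : 200 * z ≤ k ^ 2 := by
    calc 200 * z ≤ 200 * (L * k) := Nat.mul_le_mul_left _ hden
      _ = 200 * L * k := by ring
      _ ≤ k * k := Nat.mul_le_mul_right _ hkL
      _ = k ^ 2 := by ring
  have hne : Q.Nonempty := by rw [← card_pos]; omega
  have hkz : k ≤ z := by
    have hsub : Q ⊆ Ico z (2 * z) := fun x hx => mem_Ico.mpr (hQz x hx)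
    have := card_le_card hsub
    rw [Nat.card_Ico] at this
    omega
  obtain ⟨q, hq, hpop⟩ := exists_popular z Q hQz hne
  have hqp := hQ q hq
  have hqz := hQz q hq
  -- size-one toggles
  have hn1 : 9 * (9600 * L ^ 4) * k < (Nd Q q).card + 9 * k := by
    by_contra hcon
    push Not at hcon
    have h1 : k ^ 3 ≤ 2 * (L * k) * (9 * (9600 * L ^ 4) * k) := by
      calc k ^ 3 ≤ 2 * z * ((Nd Q q).card + 4 * k) := hpop
        _ ≤ 2 * (L * k) * ((Nd Q q).card + 4 * k) := by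
            refine Nat.mul_le_mul_right _ ?_
            exact Nat.mul_le_mul_left _ hden
        _ ≤ 2 * (L * k) * (9 * (9600 * L ^ 4) * k) := by
            refine Nat.mul_le_mul_left _ ?_
            omega
    have h2 : 2 * (L * k) * (9 * (9600 * L ^ 4) * k) = (172800 * L ^ 5) * k ^ 2 := by ring
    have h3 : (172800 * L ^ 5) * k ^ 2 < k * k ^ 2 := by
      refine Nat.mul_lt_mul_of_pos_right ?_ (by positivity)
      have : 1 ≤ L ^ 5 := Nat.one_le_pow _ _ hL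
      omega
    have h4 : k * k ^ 2 = k ^ 3 := by ring
    omega
  obtain ⟨U1, hU1, hU1c, B1, hB1⟩ := triple_family Q q (9600 * L ^ 4) hn1
  -- pair products
  set Y := PP (Q.erase q) with hY
  have hQe : ∀ p ∈ Q.erase q, p.Prime ∧ p ≠ q ∧ z ≤ p ∧ p < 2 * z := by
    intro p hp
    have hp' := mem_erase.mp hp
    exact ⟨hQ p hp'.2, hp'.1, hQz p hp'.2⟩
  have hYmem : ∀ y ∈ Y, z ^ 2 ≤ y ∧ y < 4 * z ^ 2 ∧ ¬ q ∣ y ∧ ¬ y.Prime := by
    intro y hy
    rw [hY, mem_PP] at hy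
    obtain ⟨a, ha, b, hb, _, rfl⟩ := hy
    have ha' := hQe a ha
    have hb' := hQe b hb
    refine ⟨pair_ge ha'.2.2.1 hb'.2.2.1, pair_lt ha'.2.2.2 hb'.2.2.2,
      not_dvd_pair hqp ha'.1 hb'.1 ha'.2.1 hb'.2.1, ?_⟩
    exact Nat.not_prime_mul ha'.1.one_lt.ne' hb'.1.one_lt.ne'
  have hYcard2 : 2 * Y.card = (k - 1) * (k - 1 - 1) := by
    rw [hY, card_PP _ (fun p hp => (hQe p hp).1), two_mul_choose_two, card_erase_of_mem hq]
  have hYcard : k ^ 2 ≤ 4 * Y.card := by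
    obtain ⟨f, hf⟩ : ∃ f, k = f + 2 := ⟨k - 2, by omega⟩
    have h1 : k - 1 = f + 1 := by omega
    have h2 : k - 1 - 1 = f := by omega
    rw [h1] at hYcard2
    have h3 : f + 1 - 1 = f := by omega
    rw [h3] at hYcard2
    rw [hf]
    nlinarith
  have hYcard' : Y.card ≤ z ^ 2 := by
    have h1 : (k - 1) * (k - 1 - 1) ≤ z * z := Nat.mul_le_mul (by omega) (by omega)
    have h2 : z ^ 2 = z * z := by ring
    omega
  -- the pair family
  set n2 := k ^ 2 / 16 with hn2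
  have hn2a : 16 * n2 ≤ k ^ 2 := Nat.mul_div_le _ _
  have hn2b : k ^ 2 < 16 * n2 + 16 := by
    have := Nat.lt_mul_div_succ (k ^ 2) (show 0 < 16 by norm_num)
    rw [← hn2] at this
    omega
  have hLp2 : 0 < L ^ 2 := by positivity
  have hm : (200 * L ^ 2) * (3 * z ^ 2 / (9600 * L ^ 4) + 1) < Y.card - 2 * n2 := by
    set X := 3 * z ^ 2 / (9600 * L ^ 4) with hX
    have h1 : (9600 * L ^ 4) * X ≤ 3 * z ^ 2 := Nat.mul_div_le _ _
    have h2 : z ^ 2 ≤ L ^ 2 * k ^ 2 := by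
      calc z ^ 2 ≤ (L * k) ^ 2 := Nat.pow_le_pow_left hden 2
        _ = L ^ 2 * k ^ 2 := by ring
    have h3 : (L ^ 2) * (9600 * L ^ 2 * X) ≤ (L ^ 2) * (3 * k ^ 2) := by
      calc (L ^ 2) * (9600 * L ^ 2 * X) = (9600 * L ^ 4) * X := by ring
        _ ≤ 3 * z ^ 2 := h1
        _ ≤ 3 * (L ^ 2 * k ^ 2) := Nat.mul_le_mul_left _ h2
        _ = (L ^ 2) * (3 * k ^ 2) := by ring
    have h4 : 9600 * L ^ 2 * X ≤ 3 * k ^ 2 := Nat.le_of_mul_le_mul_left h3 hLp2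
    have h5 : 6400 * L ^ 2 ≤ k ^ 2 := by
      calc 6400 * L ^ 2 ≤ 40000 * L ^ 2 := Nat.mul_le_mul_right _ (by norm_num)
        _ = (200 * L) ^ 2 := by ring
        _ ≤ k ^ 2 := Nat.pow_le_pow_left hkL 2
    have h6 : (200 * L ^ 2) * (X + 1) = 200 * L ^ 2 * X + 200 * L ^ 2 := by ring
    have h7 : 9600 * L ^ 2 * X = 48 * (200 * L ^ 2 * X) := by ring
    have h8 : 6400 * L ^ 2 = 32 * (200 * L ^ 2) := by ring
    have h9 : 0 < k ^ 2 := by positivity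
    rw [h6]
    rw [h7] at h4
    rw [h8] at h5
    omega
  have hn2G : 9 * z ^ 2 ≤ n2 * (200 * L ^ 2) := by
    have h2 : z ^ 2 ≤ L ^ 2 * k ^ 2 := by
      calc z ^ 2 ≤ (L * k) ^ 2 := Nat.pow_le_pow_left hden 2
        _ = L ^ 2 * k ^ 2 := by ring
    have h3 : L ^ 2 * k ^ 2 ≤ L ^ 2 * (16 * n2 + 16) := Nat.mul_le_mul_left _ hn2b.le
    have h4 : L ^ 2 * (16 * n2 + 16) = 16 * (n2 * L ^ 2) + 16 * L ^ 2 := by ring
    have h5 : n2 * (200 * L ^ 2) = 200 * (n2 * L ^ 2) := by ring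
    have h6 : 200 * L ^ 2 ≤ z ^ 2 := by
      calc 200 * L ^ 2 ≤ 40000 * L ^ 2 := Nat.mul_le_mul_right _ (by norm_num)
        _ = (200 * L) ^ 2 := by ring
        _ ≤ z ^ 2 := Nat.pow_le_pow_left (hkL.trans hkz) 2
    omega
  obtain ⟨U2, hU2, B2, ⟨S20, hS20, hS20s⟩, hB2⟩ := pair_family (z ^ 2) (3 * z ^ 2) (200 * L ^ 2)
    (9600 * L ^ 4) (Y.card - 2 * n2) (by positivity) (by positivity) hm n2 Y
    (fun y hy => ⟨(hYmem y hy).1, by have := (hYmem y hy).2.1; omega⟩) (by omega)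
  -- elimination set
  obtain ⟨P, hP, hPcard⟩ : ∃ P ⊆ Y, P.card = 2 * z := exists_subset_card_eq (by omega)
  set V := ∑ y ∈ P, y with hV
  have hVle : V ≤ 8 * z ^ 3 := by
    have h1 : ∑ y ∈ P, y ≤ P.card • (4 * z ^ 2) :=
      sum_le_card_nsmul P _ _ (fun y hy => (hYmem y (hP hy)).2.1.le)
    rw [hPcard, smul_eq_mul] at h1
    calc V ≤ 2 * z * (4 * z ^ 2) := h1
      _ = 8 * z ^ 3 := by ring
  set U2' := U2.image (fun y => q * y) with hU2'
  have hU2'sub : U2' ⊆ Y.image (fun y => q * y) := image_subset_image hU2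
  have hres := reserved_sub Q M q hQ hM0 hq (by omega)
  rw [← hY] at hres
  set D' := DD Q M \ (U1 ∪ (U2' ∪ P)) with hD'
  have hslack : ∀ d ∈ D', d ≤ 4 * z ^ 2 + ∑ x ∈ D'.filter (· < d), x :=
    slack_cond z Q M q hQ hQz hM0 hM hq U1 U2' P hU1 hU2'sub hP (by omega) hk200 (by omega)
      (by omega)
  -- sizes of the reserved sets
  have hU1sum : ∑ x ∈ U1, x ≤ 2 * z ^ 2 := by
    have h1 : ∑ x ∈ U1, x ≤ U1.card • (2 * z) :=
      sum_le_card_nsmul U1 _ _ (fun y hy => (hQe y (hU1 hy)).2.2.2.le)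
    rw [smul_eq_mul] at h1
    have h2 : U1.card ≤ z := by
      have h3 := card_le_card hU1
      have h4 := card_erase_le (s := Q) (a := q)
      omega
    calc ∑ x ∈ U1, x ≤ U1.card * (2 * z) := h1
      _ ≤ z * (2 * z) := Nat.mul_le_mul_right _ h2
      _ = 2 * z ^ 2 := by ring
  have hU2sum : ∑ x ∈ U2, x ≤ 4 * z ^ 4 := by
    have h1 : ∑ x ∈ U2, x ≤ U2.card • (4 * z ^ 2) :=
      sum_le_card_nsmul U2 _ _ (fun y hy => (hYmem y (hU2 hy)).2.1.le)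
    rw [smul_eq_mul] at h1
    have h2 : U2.card ≤ z ^ 2 := (card_le_card hU2).trans hYcard'
    calc ∑ x ∈ U2, x ≤ U2.card * (4 * z ^ 2) := h1
      _ ≤ z ^ 2 * (4 * z ^ 2) := Nat.mul_le_mul_right _ h2
      _ = 4 * z ^ 4 := by ring
  have hmulinj : ∀ s : Finset ℕ, ∑ x ∈ s.image (fun y => q * y), x = q * ∑ y ∈ s, y := by
    intro s
    rw [sum_image, mul_sum]
    intro x _ y _ h
    exact Nat.eq_of_mul_eq_mul_left hqp.pos h
  have hU2'sum : ∑ x ∈ U2', x ≤ 8 * z ^ 5 := by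
    rw [hU2', hmulinj]
    calc q * ∑ y ∈ U2, y ≤ (2 * z) * (4 * z ^ 4) := Nat.mul_le_mul hqz.2.le hU2sum
      _ = 8 * z ^ 5 := by ring
  have hB1le : B1 ≤ ∑ x ∈ U1, x := by
    obtain ⟨S, hS, hSs⟩ := hB1 0 (Nat.zero_le _)
    have : ∑ s ∈ S, s ≤ ∑ x ∈ U1, x := sum_le_sum_of_subset hS
    omega
  have hB2le : B2 ≤ ∑ x ∈ U2, x := by
    rw [← hS20s]
    exact sum_le_sum_of_subset hS20
  have hqB2 : q * B2 ≤ 8 * z ^ 5 := by
    calc q * B2 ≤ (2 * z) * (4 * z ^ 4) := Nat.mul_le_mul hqz.2.le (hB2le.trans hU2sum)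
      _ = 8 * z ^ 5 := by ring
  have hz6 : 8 * z ^ 5 + 2 * z ^ 2 + 8 * z ^ 3 ≤ z ^ 6 := by
    have h1 : z ^ 2 ≤ z ^ 5 := Nat.pow_le_pow_right (by omega) (by norm_num)
    have h2 : z ^ 3 ≤ z ^ 5 := Nat.pow_le_pow_right (by omega) (by norm_num)
    have h3 : 18 * z ^ 5 ≤ z * z ^ 5 := Nat.mul_le_mul_right _ (by omega)
    have h4 : z * z ^ 5 = z ^ 6 := by ring
    omega
  have hDsum : ∑ d ∈ DD Q M, d ≤ ∑ d ∈ D', d + (∑ x ∈ U1, x + (∑ x ∈ U2', x + V)) := by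
    have h1 : DD Q M ⊆ D' ∪ (U1 ∪ (U2' ∪ P)) := by
      intro x hx
      by_cases h : x ∈ U1 ∪ (U2' ∪ P)
      · exact mem_union_right _ h
      · exact mem_union_left _ (mem_sdiff.mpr ⟨hx, h⟩)
    have hu : ∀ s t : Finset ℕ, ∑ x ∈ s ∪ t, x ≤ ∑ x ∈ s, x + ∑ x ∈ t, x := by
      intro s t
      rw [← sum_union_inter]
      exact Nat.le_add_right _ _
    calc ∑ d ∈ DD Q M, d ≤ ∑ d ∈ D' ∪ (U1 ∪ (U2' ∪ P)), d := sum_le_sum_of_subset h1
      _ ≤ ∑ d ∈ D', d + ∑ d ∈ U1 ∪ (U2' ∪ P), d := hu _ _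
      _ ≤ ∑ d ∈ D', d + (∑ d ∈ U1, d + ∑ d ∈ U2' ∪ P, d) := Nat.add_le_add_left (hu _ _) _
      _ ≤ ∑ d ∈ D', d + (∑ x ∈ U1, x + (∑ x ∈ U2', x + V)) :=
          Nat.add_le_add_left (Nat.add_le_add_left (hu _ _) _) _
  -- real approximation
  obtain ⟨S0, hS0, hS0a, hS0b⟩ := slack_complete D' (4 * z ^ 2) hslack (T - (q * B2 + B1) - V)
    (by omega)
  -- elimination mod q
  set R := T - (q * B2 + B1) - ∑ d ∈ S0, d with hR
  have hRV : V ≤ R := by omega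
  have hRV' : R ≤ V + 4 * z ^ 2 := by omega
  obtain ⟨P', hP', hP'mod⟩ := elim_residue q hqp P (fun x hx => (hYmem x (hP hx)).2.2.1)
    (by omega) R
  have hP'le : ∑ x ∈ P', x ≤ V := sum_le_sum_of_subset hP'
  have hdvd : q ∣ R - ∑ x ∈ P', x := (Nat.modEq_iff_dvd' (hP'le.trans hRV)).mp hP'mod
  obtain ⟨a, ha⟩ := hdvd
  have haz : a ≤ 9 * z ^ 2 := by
    have h1 : z * a ≤ q * a := Nat.mul_le_mul_right _ hqz.1
    have h2 : q * a ≤ 8 * z ^ 3 + 4 * z ^ 2 := by omega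
    have h3 : z * a ≤ z * (9 * z ^ 2) := by
      calc z * a ≤ 8 * z ^ 3 + 4 * z ^ 2 := h1.trans h2
        _ ≤ 8 * z ^ 3 + z * z ^ 2 := Nat.add_le_add_left (Nat.mul_le_mul_right _ (by omega)) _
        _ = z * (9 * z ^ 2) := by ring
    exact Nat.le_of_mul_le_mul_left h3 (by omega)
  obtain ⟨S2, hS2, hS2a, hS2b⟩ := hB2 a (haz.trans hn2G)
  obtain ⟨S1, hS1, hS1s⟩ := hB1 (B2 + a - ∑ s ∈ S2, s) (by omega)
  -- disjointness
  have hdis0 : Disjoint S0 (P' ∪ (S1 ∪ S2.image (fun y => q * y))) := by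
    rw [disjoint_left]
    intro x hx hx'
    have h1 := hS0 hx
    rw [hD', mem_sdiff, mem_union, mem_union] at h1
    rw [mem_union, mem_union] at hx'
    apply h1.2
    rcases hx' with h | h | h
    · exact Or.inr (Or.inr (hP' h))
    · exact Or.inl (hS1 h)
    · exact Or.inr (Or.inl (image_subset_image hS2 h))
  have hdis1 : Disjoint P' (S1 ∪ S2.image (fun y => q * y)) := by
    rw [disjoint_left]
    intro x hx hx'
    have h1 := hYmem x (hP (hP' hx))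
    rw [mem_union] at hx'
    rcases hx' with h | h
    · exact h1.2.2.2 (hQe x (hU1 (hS1 h))).1
    · rw [mem_image] at h
      obtain ⟨y, _, hy⟩ := h
      exact h1.2.2.1 ⟨y, hy.symm⟩
  have hdis2 : Disjoint S1 (S2.image (fun y => q * y)) := by
    rw [disjoint_left]
    intro x hx hx'
    have h1 := hQe x (hU1 (hS1 hx))
    rw [mem_image] at hx'
    obtain ⟨y, _, hy⟩ := hx'
    exact h1.2.1 ((Nat.prime_dvd_prime_iff_eq hqp h1.1).mp ⟨y, hy.symm⟩).symm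
  refine ⟨S0 ∪ (P' ∪ (S1 ∪ S2.image (fun y => q * y))), ?_, ?_⟩
  · intro x hx
    rw [mem_union, mem_union, mem_union] at hx
    rcases hx with h | h | h | h
    · exact (mem_sdiff.mp (hS0 h)).1
    · exact hres.2.1 (hP (hP' h))
    · exact hres.1 (hU1 (hS1 h))
    · exact hres.2.2 (image_subset_image (hS2.trans hU2) h)
  · rw [sum_union hdis0, sum_union hdis1, sum_union hdis2, hmulinj, hS1s]
    have e1 : (B2 + a - ∑ s ∈ S2, s) * q + q * ∑ y ∈ S2, y = q * B2 + q * a := by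
      have : (B2 + a - ∑ s ∈ S2, s) + ∑ s ∈ S2, s = B2 + a := Nat.sub_add_cancel hS2a
      calc (B2 + a - ∑ s ∈ S2, s) * q + q * ∑ y ∈ S2, y
          = q * ((B2 + a - ∑ s ∈ S2, s) + ∑ s ∈ S2, s) := by ring
        _ = q * (B2 + a) := by rw [this]
        _ = q * B2 + q * a := by ring
    omega

end Run7.h419
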