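import Mathlib
import Pool.Agent.Run7.h419.WeirdF

set_option autoImplicit false

namespace Run7.h419

open Finset

/-- Sum of reciprocals of a finite set of naturals. -/
def RS (S : Finset ℕ) : ℚ := ∑ n ∈ S, (1 / (n : ℚ))

theorem RS_union {S T : Finset ℕ} (h : Disjoint S T) : RS (S ∪ T) = RS S + RS T := by
  rw [RS, RS, RS, sum_union h]

theorem div_mem_of_DD (Q : Finset ℕ) (M : ℕ) (hQ : ∀ p ∈ Q, p.Prime) (hM0 : 0 < M)
    (hMQ : ∀ p ∈ Q, ¬ p ∣ M) (d : ℕ) (hd : d ∈ DD Q M) :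
    (M * ∏ x ∈ Q, x) / d ∣ M * ∏ x ∈ Q, x ∧ ¬ (M * ∏ x ∈ Q, x) / d ∣ M := by
  rw [DD, mem_filter, Nat.mem_divisors] at hd
  obtain ⟨⟨hdN, _⟩, p, hp, hpd⟩ := hd
  refine ⟨Nat.div_dvd_of_dvd hdN, ?_⟩
  intro h
  have h1 : p ∣ d * ((M * ∏ x ∈ Q, x) / d) := by
    rw [Nat.mul_div_cancel' hdN]
    exact dvd_NN Q M hp
  rcases (Nat.Prime.dvd_mul (hQ p hp)).mp h1 with h2 | h2
  · exact hpd h2
  · exact hMQ p hp (h2.trans h)

theorem div_mem_DD (Q : Finset ℕ) (M : ℕ) (hQ : ∀ p ∈ Q, p.Prime) (hM0 : 0 < M)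
    (n : ℕ) (hn : n ∣ M * ∏ x ∈ Q, x) (hnM : ¬ n ∣ M) :
    (M * ∏ x ∈ Q, x) / n ∈ DD Q M := by
  have hN0 := NN_pos Q M hQ hM0
  rw [DD, mem_filter, Nat.mem_divisors]
  refine ⟨⟨Nat.div_dvd_of_dvd hn, hN0.ne'⟩, ?_⟩
  by_contra hcon
  push Not at hcon
  have h1 : ∏ p ∈ Q, p ∣ (M * ∏ x ∈ Q, x) / n :=
    prod_primes_dvd _ (fun p hp => (hQ p hp).prime) hcon
  have h2 : n * ∏ p ∈ Q, p ∣ M * ∏ x ∈ Q, x := by
    rw [← Nat.mul_div_cancel' hn]
    exact Nat.mul_dvd_mul_left n h1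
  have h3 : 0 < ∏ p ∈ Q, p := prod_pos (fun p hp => (hQ p hp).pos)
  exact hnM ((Nat.mul_dvd_mul_iff_right h3).mp h2)

theorem RS_image (N : ℕ) (hN0 : 0 < N) (S : Finset ℕ) (hS : ∀ d ∈ S, d ∣ N) :
    RS (S.image (fun d => N / d)) = ((∑ d ∈ S, d : ℕ) : ℚ) / N := by
  rw [RS, sum_image]
  · push_cast
    rw [sum_div]
    refine sum_congr rfl ?_
    intro d hd
    have hdN := hS d hd
    have hd0 : 0 < d := Nat.pos_of_dvd_of_pos hdN hN0
    rw [Nat.cast_div hdN (by exact_mod_cast hd0.ne')]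
    field_simp
  · intro a ha b hb h
    simp only at h
    have ha' := hS a ha
    have hb' := hS b hb
    have h1 : N / (N / a) = a := Nat.div_div_self ha' hN0.ne'
    have h2 : N / (N / b) = b := Nat.div_div_self hb' hN0.ne'
    rw [← h1, h, h2]

theorem block_step (z L : ℕ) (Q : Finset ℕ) (M : ℕ)
    (hQ : ∀ p ∈ Q, p.Prime) (hQz : ∀ p ∈ Q, z ≤ p ∧ p < 2 * z)
    (hM0 : 0 < M) (hM : ∀ p, p.Prime → p ∣ M → p < z)
    (hL : 1 ≤ L) (hden : z ≤ L * Q.card) (hbig : 200000 * L ^ 6 ≤ z)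
    (S : Finset ℕ) (hS : ∀ n ∈ S, n ∣ M ∧ n ≠ 1) (hlt : RS S < 1) :
    (∃ S' : Finset ℕ, (∀ n ∈ S', n ∣ M * ∏ x ∈ Q, x ∧ n ≠ 1) ∧ RS S' = 1) ∨
    (∃ S' : Finset ℕ, (∀ n ∈ S', n ∣ M * ∏ x ∈ Q, x ∧ n ≠ 1) ∧ RS S' < 1 ∧
      RS S + RS (M * ∏ x ∈ Q, x).divisors - RS M.divisors - 1 / (z : ℚ) ≤ RS S') := by
  classical
  have hN0 := NN_pos Q M hQ hM0
  have hMQ : ∀ p ∈ Q, ¬ p ∣ M := by
    intro p hp h
    have h1 := hM p (hQ p hp) h
    have h2 := (hQz p hp).1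
    omega
  have hLpos : 1 ≤ L ^ 6 := Nat.one_le_pow _ _ hL
  have hz1 : 200000 ≤ z := by omega
  have hk : 200000 ≤ Q.card := by
    have h1 : L * (200000 * L ^ 5) ≤ L * Q.card := by
      calc L * (200000 * L ^ 5) = 200000 * L ^ 6 := by ring
        _ ≤ z := hbig
        _ ≤ L * Q.card := hden
    have h2 := Nat.le_of_mul_le_mul_left h1 (by omega)
    have h3 : 1 ≤ L ^ 5 := Nat.one_le_pow _ _ hL
    omega
  set PQ := ∏ x ∈ Q, x with hPQ
  set N := M * PQ with hN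
  obtain ⟨q0, hq0⟩ : Q.Nonempty := by rw [← card_pos]; omega
  have hq0z := hQz q0 hq0
  have hq0p := hQ q0 hq0
  have hPQbig : q0 * z ^ 6 ≤ PQ := by
    rw [hPQ, ← mul_prod_erase Q (fun x => x) hq0]
    refine Nat.mul_le_mul_left _ ?_
    have h1 : z ^ (Q.erase q0).card ≤ ∏ x ∈ Q.erase q0, x := by
      rw [← prod_const]
      exact prod_le_prod' (fun p hp => (hQz p (mem_of_mem_erase hp)).1)
    have h2 : z ^ 6 ≤ z ^ (Q.erase q0).card := by
      refine Nat.pow_le_pow_right (by omega) ?_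
      rw [card_erase_of_mem hq0]; omega
    exact h2.trans h1
  have hPQ0 : 0 < PQ := prod_pos (fun p hp => (hQ p hp).pos)
  set BD := N.divisors \ M.divisors with hBD
  have hMN : M.divisors ⊆ N.divisors := Nat.divisors_subset_of_dvd hN0.ne' (dvd_mul_right M PQ)
  have hRSBD : RS BD = RS N.divisors - RS M.divisors := by
    rw [hBD, RS, RS, RS, sum_sdiff_eq_sub hMN]
  have hBDimg : BD = (DD Q M).image (fun d => N / d) := by
    ext n
    rw [hBD, mem_sdiff, Nat.mem_divisors, Nat.mem_divisors, mem_image]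
    constructor
    · rintro ⟨⟨h1, _⟩, h2⟩
      have h3 : ¬ n ∣ M := fun h => h2 ⟨h, hM0.ne'⟩
      refine ⟨N / n, div_mem_DD Q M hQ hM0 n h1 h3, ?_⟩
      exact Nat.div_div_self h1 hN0.ne'
    · rintro ⟨d, hd, rfl⟩
      have h1 := div_mem_of_DD Q M hQ hM0 hMQ d hd
      exact ⟨⟨h1.1, hN0.ne'⟩, fun h => h1.2 h.1⟩
  have hDDdvd : ∀ d ∈ DD Q M, d ∣ N := by
    intro d hd
    rw [DD, mem_filter, Nat.mem_divisors] at hd
    exact hd.1.1
  have hRSBD2 : RS BD = ((∑ d ∈ DD Q M, d : ℕ) : ℚ) / N := by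
    rw [hBDimg]
    exact RS_image N hN0 _ hDDdvd
  -- the target
  have hMq : (0 : ℚ) < M := by exact_mod_cast hM0
  have hNq : (0 : ℚ) < N := by exact_mod_cast hN0
  have hsumM : ((∑ n ∈ S, M / n : ℕ) : ℚ) = M * RS S := by
    push_cast
    rw [RS, mul_sum]
    refine sum_congr rfl ?_
    intro n hn
    have hnM := (hS n hn).1
    have hn0 : 0 < n := Nat.pos_of_dvd_of_pos hnM hM0
    rw [Nat.cast_div hnM (by exact_mod_cast hn0.ne')]
    ring
  have hsumlt : ∑ n ∈ S, M / n < M := by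
    have : ((∑ n ∈ S, M / n : ℕ) : ℚ) < M := by
      rw [hsumM]
      nlinarith
    exact_mod_cast this
  set T := PQ * (M - ∑ n ∈ S, M / n) with hT
  have hTq : (T : ℚ) = N * (1 - RS S) := by
    rw [hT, hN]
    push_cast [Nat.cast_sub hsumlt.le]
    have := hsumM
    push_cast at this
    rw [this]
    ring
  have hTge : z ^ 6 ≤ T := by
    have h1 : 1 ≤ M - ∑ n ∈ S, M / n := by omega
    calc z ^ 6 = 1 * z ^ 6 := (one_mul _).symm
      _ ≤ q0 * z ^ 6 := Nat.mul_le_mul_right _ hq0p.pos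
      _ ≤ PQ := hPQbig
      _ = PQ * 1 := (mul_one _).symm
      _ ≤ T := Nat.mul_le_mul_left _ h1
  by_cases hc : T + z ^ 6 ≤ ∑ d ∈ DD Q M, d
  · left
    obtain ⟨Sd, hSd, hSdT⟩ := key_block z L Q M hQ hQz hM0 hM hL hden hbig T hTge hc
    have hnot : ∀ n ∈ Sd.image (fun d => N / d), n ∣ N ∧ ¬ n ∣ M := by
      intro n hn
      rw [mem_image] at hn
      obtain ⟨d, hd, rfl⟩ := hn
      exact div_mem_of_DD Q M hQ hM0 hMQ d (hSd hd)
    refine ⟨S ∪ Sd.image (fun d => N / d), ?_, ?_⟩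
    · intro n hn
      rw [mem_union] at hn
      rcases hn with h | h
      · exact ⟨(hS n h).1.trans (dvd_mul_right M PQ), (hS n h).2⟩
      · refine ⟨(hnot n h).1, ?_⟩
        intro h1
        exact (hnot n h).2 (h1 ▸ one_dvd M)
    · rw [RS_union]
      · rw [RS_image N hN0 Sd (fun d hd => hDDdvd d (hSd hd)), hSdT, hTq]
        field_simp
        ring
      · rw [disjoint_left]
        intro x hx hx'
        exact (hnot x hx').2 (hS x hx).1
  · right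
    have hq0BD : q0 ∈ BD := by
      rw [hBD, mem_sdiff, Nat.mem_divisors, Nat.mem_divisors]
      exact ⟨⟨dvd_NN Q M hq0, hN0.ne'⟩, fun h => hMQ q0 hq0 h.1⟩
    have hRSe : RS (BD.erase q0) = RS BD - 1 / (q0 : ℚ) := by
      rw [RS, RS, ← add_sum_erase BD (fun n => 1 / (n : ℚ)) hq0BD]
      ring
    have hBDmem : ∀ n ∈ BD.erase q0, n ∣ N ∧ ¬ n ∣ M := by
      intro n hn
      have h1 := mem_of_mem_erase hn
      rw [hBD, mem_sdiff, Nat.mem_divisors, Nat.mem_divisors] at h1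
      exact ⟨h1.1.1, fun h => h1.2 ⟨h, hM0.ne'⟩⟩
    have hRSu : RS (S ∪ BD.erase q0) = RS S + (RS BD - 1 / (q0 : ℚ)) := by
      rw [RS_union, hRSe]
      rw [disjoint_left]
      intro x hx hx'
      exact (hBDmem x hx').2 (hS x hx).1
    have hq0q : (0 : ℚ) < q0 := by exact_mod_cast hq0p.pos
    have hzq : (0 : ℚ) < z := by exact_mod_cast (show 0 < z by omega)
    refine ⟨S ∪ BD.erase q0, ?_, ?_, ?_⟩
    · intro n hn
      rw [mem_union] at hn
      rcases hn with h | h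
      · exact ⟨(hS n h).1.trans (dvd_mul_right M PQ), (hS n h).2⟩
      · refine ⟨(hBDmem n h).1, ?_⟩
        intro h1
        exact (hBDmem n h).2 (h1 ▸ one_dvd M)
    · rw [hRSu]
      push Not at hc
      have h1 : ((∑ d ∈ DD Q M, d : ℕ) : ℚ) < T + z ^ 6 := by exact_mod_cast hc
      have h2 : ((∑ d ∈ DD Q M, d : ℕ) : ℚ) = N * RS BD := by
        rw [hRSBD2]; field_simp
      have h3 : (q0 : ℚ) * z ^ 6 ≤ N := by
        have : q0 * z ^ 6 ≤ N := by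
          calc q0 * z ^ 6 ≤ PQ := hPQbig
            _ = 1 * PQ := (one_mul _).symm
            _ ≤ M * PQ := Nat.mul_le_mul_right _ hM0
        exact_mod_cast this
      have h4 : (z : ℚ) ^ 6 ≤ N * (1 / q0) := by
        rw [mul_one_div, le_div_iff₀ hq0q]
        linarith
      rw [h2, hTq] at h1
      have h5 : N * (RS BD - 1 / (q0 : ℚ)) < N * (1 - RS S) := by
        rw [mul_sub]
        linarith
      have h6 := lt_of_mul_lt_mul_left h5 hNq.le
      linarith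
    · rw [hRSu, hRSBD]
      have h1 : 1 / (q0 : ℚ) ≤ 1 / z := by
        apply one_div_le_one_div_of_le hzq
        exact_mod_cast hq0z.1
      linarith

end Run7.h419
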