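import Mathlib
import Pool.Agent.Run7.h419.WeirdG

set_option autoImplicit false

namespace Run7.h419

open Finset

/-- The part of `D` in the dyadic block `[2^i, 2^(i+1))`. -/
def blk (D : Finset ℕ) (i : ℕ) : Finset ℕ := D.filter (fun p => 2 ^ i ≤ p ∧ p < 2 ^ (i + 1))

theorem reach_one (D : Finset ℕ) (hD : ∀ p ∈ D, p.Prime)
    (hblk : ∀ i, blk D i = ∅ ∨
      (1 ≤ i ∧ 200000 * (i ^ 2) ^ 6 ≤ 2 ^ i ∧ 2 ^ i ≤ i ^ 2 * (blk D i).card))
    (h4 : 4 ≤ RS (∏ p ∈ D, p).divisors) :
    ∃ S : Finset ℕ, (∀ n ∈ S, n ∣ ∏ p ∈ D, p ∧ n ≠ 1) ∧ RS S = 1 := by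
  classical
  by_contra hcon
  push Not at hcon
  have key : ∀ i : ℕ, (∃ S : Finset ℕ, (∀ n ∈ S, n ∣ ∏ p ∈ D.filter (· < 2 ^ i), p ∧ n ≠ 1) ∧
      RS S = 1) ∨ (∃ S : Finset ℕ, (∀ n ∈ S, n ∣ ∏ p ∈ D.filter (· < 2 ^ i), p ∧ n ≠ 1) ∧
      RS S < 1 ∧ RS (∏ p ∈ D.filter (· < 2 ^ i), p).divisors - 1 -
        ∑ j ∈ range i, (1 / 2 : ℚ) ^ j ≤ RS S) := by
    intro i
    induction i with
    | zero =>
      right
      have h0 : D.filter (· < 2 ^ 0) = ∅ := by
        rw [filter_eq_empty_iff]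
        intro p hp
        have := (hD p hp).one_lt
        simp; omega
      rw [h0]
      refine ⟨∅, by simp, by simp [RS], ?_⟩
      simp [RS]
    | succ i ih =>
      have hsplit : D.filter (· < 2 ^ (i + 1)) = D.filter (· < 2 ^ i) ∪ blk D i := by
        ext p
        simp only [blk, mem_filter, mem_union]
        have : 2 ^ i ≤ 2 ^ (i + 1) := Nat.pow_le_pow_right (by norm_num) (by omega)
        constructor
        · rintro ⟨h1, h2⟩
          by_cases h : p < 2 ^ i
          · exact Or.inl ⟨h1, h⟩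
          · exact Or.inr ⟨h1, by omega, h2⟩
        · rintro (⟨h1, h2⟩ | ⟨h1, h2, h3⟩)
          · exact ⟨h1, by omega⟩
          · exact ⟨h1, h3⟩
      have hdisj : Disjoint (D.filter (· < 2 ^ i)) (blk D i) := by
        rw [disjoint_left]
        intro p h1 h2
        simp only [blk, mem_filter] at h1 h2
        omega
      have hprod : ∏ p ∈ D.filter (· < 2 ^ (i + 1)), p =
          (∏ p ∈ D.filter (· < 2 ^ i), p) * ∏ p ∈ blk D i, p := by
        rw [hsplit, prod_union hdisj]
      rw [hprod]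
      set M := ∏ p ∈ D.filter (· < 2 ^ i), p with hM
      rcases ih with ⟨S, hS, hS1⟩ | ⟨S, hS, hS1, hS2⟩
      · left
        exact ⟨S, fun n hn => ⟨(hS n hn).1.trans (dvd_mul_right _ _), (hS n hn).2⟩, hS1⟩
      · rcases hblk i with hb | ⟨hi1, hi2, hi3⟩
        · right
          rw [hb, prod_empty, mul_one]
          refine ⟨S, hS, hS1, ?_⟩
          rw [sum_range_succ]
          have : (0 : ℚ) ≤ (1 / 2) ^ i := by positivity
          linarith
        · have hQ : ∀ p ∈ blk D i, p.Prime := by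
            intro p hp
            rw [blk, mem_filter] at hp
            exact hD p hp.1
          have hQz : ∀ p ∈ blk D i, 2 ^ i ≤ p ∧ p < 2 * 2 ^ i := by
            intro p hp
            rw [blk, mem_filter] at hp
            have : 2 ^ (i + 1) = 2 * 2 ^ i := by ring
            omega
          have hM0 : 0 < M := prod_pos (fun p hp => (hD p (mem_filter.mp hp).1).pos)
          have hMp : ∀ p, p.Prime → p ∣ M → p < 2 ^ i := by
            intro p hp hpM
            rw [hM, Prime.dvd_finsetProd_iff hp.prime] at hpM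
            obtain ⟨x, hx, hpx⟩ := hpM
            have hx' := mem_filter.mp hx
            rw [(Nat.prime_dvd_prime_iff_eq hp (hD x hx'.1)).mp hpx]
            exact hx'.2
          have hL : 1 ≤ i ^ 2 := Nat.one_le_pow _ _ hi1
          rcases block_step (2 ^ i) (i ^ 2) (blk D i) M hQ hQz hM0 hMp hL hi3 hi2 S hS hS1 with
            ⟨S', hS', hS'1⟩ | ⟨S', hS', hS'1, hS'2⟩
          · left; exact ⟨S', hS', hS'1⟩
          · right
            refine ⟨S', hS', hS'1, ?_⟩
            rw [sum_range_succ]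
            have h1 : (1 / ((2 ^ i : ℕ) : ℚ)) = (1 / 2) ^ i := by
              push_cast
              rw [one_div_pow]
            rw [h1] at hS'2
            linarith
  -- pick a large index
  obtain ⟨J, hJ⟩ : ∃ J : ℕ, ∀ p ∈ D, p < 2 ^ J := by
    refine ⟨D.sup id, ?_⟩
    intro p hp
    have h1 : p ≤ D.sup id := le_sup (f := id) hp
    exact lt_of_le_of_lt h1 Nat.lt_two_pow_self
  have hfull : D.filter (· < 2 ^ J) = D := filter_true_of_mem hJ
  rcases key J with ⟨S, hS, hS1⟩ | ⟨S, hS, hS1, hS2⟩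
  · rw [hfull] at hS
    exact hcon S hS hS1
  · rw [hfull] at hS2
    have hgeom : ∑ j ∈ range J, (1 / 2 : ℚ) ^ j ≤ 2 := by
      have h := geom_sum_eq (show (1 / 2 : ℚ) ≠ 1 by norm_num) J
      rw [h]
      have : (0 : ℚ) ≤ (1 / 2) ^ J := by positivity
      rw [div_le_iff_of_neg (by norm_num)]
      linarith
    linarith

theorem RS_divisors (n : ℕ) (hn : 0 < n) :
    RS n.divisors = ((∑ d ∈ n.divisors, d : ℕ) : ℚ) / n := by
  rw [← RS_image n hn n.divisors (fun d hd => Nat.dvd_of_mem_divisors hd)]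
  rw [Nat.image_div_divisors_eq_divisors]

theorem RS_prod (D : Finset ℕ) (hD : ∀ p ∈ D, p.Prime) :
    RS (∏ p ∈ D, p).divisors = ∏ p ∈ D, (1 + 1 / (p : ℚ)) := by
  classical
  induction D using Finset.induction_on with
  | empty => simp [RS]
  | insert p D hp ih =>
    have hD' : ∀ q ∈ D, q.Prime := fun q hq => hD q (mem_insert_of_mem hq)
    have hpp := hD p (mem_insert_self p D)
    have hpos : 0 < ∏ q ∈ D, q := prod_pos (fun q hq => (hD' q hq).pos)
    rw [prod_insert hp, prod_insert hp, ← ih hD']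
    have hcop : Nat.Coprime p (∏ q ∈ D, q) := by
      rw [Nat.Prime.coprime_iff_not_dvd hpp, Prime.dvd_finsetProd_iff hpp.prime]
      rintro ⟨q, hq, hpq⟩
      have := (Nat.prime_dvd_prime_iff_eq hpp (hD' q hq)).mp hpq
      exact hp (this ▸ hq)
    rw [RS_divisors _ (Nat.mul_pos hpp.pos hpos), RS_divisors _ hpos,
      Nat.Coprime.sum_divisors_mul hcop]
    rw [Nat.Prime.sum_divisors hpp]
    have h1 : (p : ℚ) ≠ 0 := by exact_mod_cast hpp.ne_zero
    have h2 : ((∏ q ∈ D, q : ℕ) : ℚ) ≠ 0 := by exact_mod_cast hpos.ne'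
    push_cast
    push_cast at h2
    field_simp

/-- `σ(m)/m ≤ ∏ p/(p-1)`. -/
theorem sigma_bound (m : ℕ) :
    ((∑ i ∈ m.divisors, i : ℕ) : ℝ) / (m : ℝ) ≤ ∏ p ∈ m.primeFactors, ((p : ℝ) / (p - 1)) := by
  induction m using Nat.recOnPosPrimePosCoprime with
  | zero => simp
  | one => simp
  | prime_pow p n hp hn =>
    rw [Nat.primeFactors_prime_pow hn.ne' hp, prod_singleton, Nat.sum_divisors_prime_pow hp]
    have hp1 : (1 : ℝ) < p := by exact_mod_cast hp.one_lt
    push_cast
    rw [geom_sum_eq hp1.ne']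
    have hpm : (0 : ℝ) < p - 1 := by linarith
    rw [div_div, div_le_div_iff₀ (by positivity) hpm]
    have h1 : (p : ℝ) * ((p - 1) * p ^ n) = p ^ (n + 1) * (p - 1) := by ring
    rw [h1]
    refine mul_le_mul_of_nonneg_right ?_ hpm.le
    linarith
  | coprime a b ha hb hab iha ihb =>
    rw [Nat.Coprime.sum_divisors_mul hab, hab.primeFactors_mul,
      prod_union hab.disjoint_primeFactors]
    push_cast
    push_cast at iha ihb
    rw [mul_div_mul_comm]
    refine mul_le_mul iha ihb (by positivity) ?_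
    refine prod_nonneg ?_
    intro p hp
    have : (1 : ℝ) < p := by exact_mod_cast (Nat.prime_of_mem_primeFactors hp).one_lt
    apply div_nonneg <;> linarith

end Run7.h419
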