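import Mathlib
import Pool.Agent.Run7.h419.WeirdH

set_option autoImplicit false

namespace Run7.h419

open Finset Filter Topology

theorem exists_threshold : ∃ i0 : ℕ, 1 ≤ i0 ∧ ∀ i, i0 ≤ i → 200000 * (i ^ 2) ^ 6 ≤ 2 ^ i := by
  have h := tendsto_pow_const_div_const_pow_of_one_lt 12 (show (1 : ℝ) < 2 by norm_num)
  have h1 := (h.eventually (gt_mem_nhds (show (0 : ℝ) < 1 / 200000 by norm_num)))
  rw [eventually_atTop] at h1
  obtain ⟨a, ha⟩ := h1
  refine ⟨max a 1, le_max_right _ _, ?_⟩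
  intro i hi
  have h2 := ha i ((le_max_left _ _).trans hi)
  have h3 : (0 : ℝ) < 2 ^ i := by positivity
  rw [div_lt_div_iff₀ h3 (by norm_num)] at h2
  have h4 : ((200000 * (i ^ 2) ^ 6 : ℕ) : ℝ) ≤ ((2 ^ i : ℕ) : ℝ) := by
    push_cast
    have : ((i : ℝ) ^ 2) ^ 6 = (i : ℝ) ^ 12 := by ring
    rw [this]
    linarith
  exact_mod_cast h4

theorem dense_exists : ∃ C : ℝ, ∀ m : ℕ, 0 < m →
    C < ((∑ i ∈ m.divisors, i : ℕ) : ℝ) / (m : ℝ) →
    ∃ D ⊆ m.primeFactors, (∀ i, blk D i = ∅ ∨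
      (1 ≤ i ∧ 200000 * (i ^ 2) ^ 6 ≤ 2 ^ i ∧ 2 ^ i ≤ i ^ 2 * (blk D i).card)) ∧
      4 ≤ RS (∏ p ∈ D, p).divisors := by
  classical
  obtain ⟨i0, hi01, hi0⟩ := exists_threshold
  refine ⟨2 ^ 2 ^ i0 * Real.exp 4 * 16, ?_⟩
  intro m hm hC
  set P := m.primeFactors with hP
  have hPp : ∀ p ∈ P, p.Prime := fun p hp => Nat.prime_of_mem_primeFactors hp
  set cond : ℕ → Prop := fun i => i0 ≤ i ∧ 2 ^ i ≤ i ^ 2 * (blk P i).card with hcond
  set D := P.filter (fun p => cond (Nat.log 2 p)) with hD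
  have hlog : ∀ p ∈ P, ∀ i, (2 ^ i ≤ p ∧ p < 2 ^ (i + 1)) ↔ Nat.log 2 p = i := by
    intro p hp i
    constructor
    · rintro ⟨h1, h2⟩
      exact Nat.log_eq_of_pow_le_of_lt_pow h1 h2
    · intro h
      have hp0 : p ≠ 0 := (hPp p hp).ne_zero
      rw [← h]
      exact ⟨Nat.pow_log_le_self 2 hp0, Nat.lt_pow_succ_log_self (by norm_num) p⟩
  have hDP : D ⊆ P := filter_subset _ _
  refine ⟨D, hDP, ?_, ?_⟩
  · intro i
    by_cases hc : cond i
    · right
      have heq : blk D i = blk P i := by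
        ext p
        simp only [blk, mem_filter, hD]
        constructor
        · rintro ⟨⟨h1, _⟩, h2⟩
          exact ⟨h1, h2⟩
        · rintro ⟨h1, h2⟩
          refine ⟨⟨h1, ?_⟩, h2⟩
          rw [(hlog p h1 i).mp h2]
          exact hc
      rw [heq]
      exact ⟨hi01.trans hc.1, hi0 i hc.1, hc.2⟩
    · left
      rw [blk, filter_eq_empty_iff]
      intro p hp h2
      rw [hD, mem_filter] at hp
      rw [(hlog p hp.1 i).mp h2] at hp
      exact hc hp.2
  · -- the product estimate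
    set g : ℕ → ℝ := fun p => (p : ℝ) / (p - 1) with hg
    have hg0 : ∀ p ∈ P, 0 ≤ g p := by
      intro p hp
      have : (1 : ℝ) < p := by exact_mod_cast (hPp p hp).one_lt
      apply div_nonneg <;> linarith
    set N := P.filter (fun p => ¬ cond (Nat.log 2 p)) with hN
    set A := N.filter (fun p => Nat.log 2 p < i0) with hA
    set B := N.filter (fun p => ¬ Nat.log 2 p < i0) with hB
    have hsplit : ∏ p ∈ P, g p = (∏ p ∈ D, g p) * ((∏ p ∈ A, g p) * ∏ p ∈ B, g p) := by
      rw [hA, hB, prod_filter_mul_prod_filter_not N, hD, hN, prod_filter_mul_prod_filter_not P]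
    have hAmem : ∀ p ∈ A, p ∈ P ∧ Nat.log 2 p < i0 := by
      intro p hp
      rw [hA, hN, mem_filter, mem_filter] at hp
      exact ⟨hp.1.1, hp.2⟩
    have hBmem : ∀ p ∈ B, p ∈ P ∧ ¬ cond (Nat.log 2 p) ∧ i0 ≤ Nat.log 2 p := by
      intro p hp
      rw [hB, hN, mem_filter, mem_filter] at hp
      exact ⟨hp.1.1, hp.1.2, by omega⟩
    have hA1 : ∏ p ∈ A, g p ≤ 2 ^ 2 ^ i0 := by
      have h1 : ∏ p ∈ A, g p ≤ ∏ p ∈ A, (2 : ℝ) := by
        refine prod_le_prod (fun p hp => hg0 p (hAmem p hp).1) ?_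
        intro p hp
        have h2 : (2 : ℝ) ≤ p := by exact_mod_cast (hPp p (hAmem p hp).1).two_le
        rw [hg]
        simp only
        rw [div_le_iff₀ (by linarith)]
        linarith
      rw [prod_const] at h1
      refine h1.trans ?_
      refine pow_le_pow_right₀ (by norm_num) ?_
      have h2 : A ⊆ range (2 ^ i0) := by
        intro p hp
        rw [mem_range]
        have h3 := hAmem p hp
        have h4 := ((hlog p h3.1 _).mpr rfl).2
        exact lt_of_lt_of_le h4 (Nat.pow_le_pow_right (by norm_num) (by omega))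
      have := card_le_card h2
      rwa [card_range] at this
    have hB1 : ∏ p ∈ B, g p ≤ Real.exp 4 := by
      have h1 : ∏ p ∈ B, g p ≤ ∏ p ∈ B, Real.exp (2 / 2 ^ (Nat.log 2 p)) := by
        refine prod_le_prod (fun p hp => hg0 p (hBmem p hp).1) ?_
        intro p hp
        have h3 := hBmem p hp
        have h4 := ((hlog p h3.1 _).mpr rfl).1
        have h5 : (2 : ℝ) ^ (Nat.log 2 p) ≤ p := by exact_mod_cast h4
        have h6 : (2 : ℝ) ≤ 2 ^ (Nat.log 2 p) := by
          calc (2 : ℝ) = 2 ^ 1 := by norm_num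
            _ ≤ 2 ^ (Nat.log 2 p) := pow_le_pow_right₀ (by norm_num) (by omega)
        have h7 : g p = 1 / ((p : ℝ) - 1) + 1 := by
          rw [hg]
          simp only
          have : (p : ℝ) - 1 ≠ 0 := by linarith
          field_simp
          ring
        rw [h7]
        refine le_trans ?_ (Real.add_one_le_exp _)
        have h8 : 1 / ((p : ℝ) - 1) ≤ 2 / 2 ^ (Nat.log 2 p) := by
          rw [div_le_div_iff₀ (by linarith) (by linarith)]
          linarith
        linarith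
      refine h1.trans ?_
      rw [← Real.exp_sum]
      refine Real.exp_le_exp.mpr ?_
      have hmaps : ∀ p ∈ B, Nat.log 2 p ∈ B.image (Nat.log 2) := fun p hp =>
        mem_image_of_mem _ hp
      rw [← sum_fiberwise_of_maps_to hmaps]
      have h2 : ∀ i ∈ B.image (Nat.log 2),
          ∑ p ∈ B.filter (fun p => Nat.log 2 p = i), (2 : ℝ) / 2 ^ (Nat.log 2 p) ≤
            2 * ((i : ℝ) ^ 2)⁻¹ := by
        intro i hi
        rw [mem_image] at hi
        obtain ⟨p0, hp0, hp0i⟩ := hi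
        have h3 := hBmem p0 hp0
        rw [hp0i] at h3
        have h4 : (blk P i).card * i ^ 2 ≤ 2 ^ i := by
          by_contra hcon
          push Not at hcon
          refine h3.2.1 ⟨h3.2.2, ?_⟩
          rw [mul_comm]
          exact hcon.le
        have h5 : (B.filter (fun p => Nat.log 2 p = i)).card ≤ (blk P i).card := by
          refine card_le_card ?_
          intro p hp
          rw [mem_filter] at hp
          rw [blk, mem_filter]
          have := (hBmem p hp.1).1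
          exact ⟨this, (hlog p this i).mpr hp.2⟩
        have h6 : ∑ p ∈ B.filter (fun p => Nat.log 2 p = i), (2 : ℝ) / 2 ^ (Nat.log 2 p) =
            (B.filter (fun p => Nat.log 2 p = i)).card * (2 / 2 ^ i) := by
          rw [← nsmul_eq_mul, ← sum_const]
          refine sum_congr rfl ?_
          intro p hp
          rw [(mem_filter.mp hp).2]
        rw [h6]
        have hi1 : 1 ≤ i := hi01.trans h3.2.2
        have h7 : (0 : ℝ) < (i : ℝ) ^ 2 := by
          have : (1 : ℝ) ≤ i := by exact_mod_cast hi1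
          positivity
        have h8 : (0 : ℝ) < 2 ^ i := by positivity
        have h9 : ((B.filter (fun p => Nat.log 2 p = i)).card : ℝ) * (i : ℝ) ^ 2 ≤ 2 ^ i := by
          have : (B.filter (fun p => Nat.log 2 p = i)).card * i ^ 2 ≤ 2 ^ i :=
            (Nat.mul_le_mul_right _ h5).trans h4
          exact_mod_cast this
        rw [← div_eq_mul_inv, mul_div_assoc', div_le_div_iff₀ h8 h7]
        linarith
      refine (sum_le_sum h2).trans ?_
      rw [← mul_sum]
      obtain ⟨n, hn⟩ : ∃ n, B.image (Nat.log 2) ⊆ Ioo 0 n := by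
        refine ⟨(B.image (Nat.log 2)).sup id + 1, ?_⟩
        intro i hi
        have h3 : i ≤ (B.image (Nat.log 2)).sup id := le_sup (f := id) hi
        rw [mem_image] at hi
        obtain ⟨p0, hp0, hp0i⟩ := hi
        have h4 := (hBmem p0 hp0).2.2
        rw [mem_Ioo]
        omega
      have h3 : ∑ i ∈ B.image (Nat.log 2), ((i : ℝ) ^ 2)⁻¹ ≤ ∑ i ∈ Ioo 0 n, ((i : ℝ) ^ 2)⁻¹ :=
        sum_le_sum_of_subset_of_nonneg hn (fun i _ _ => by positivity)
      have h4 := sum_Ioo_inv_sq_le (α := ℝ) 0 n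
      have h5 : (2 : ℝ) / (((0 : ℕ) : ℝ) + 1) = 2 := by norm_num
      rw [h5] at h4
      linarith
    have hD1 : ∏ p ∈ D, g p ≤ (∏ p ∈ D, (1 + 1 / (p : ℝ))) ^ 2 := by
      rw [← prod_pow]
      refine prod_le_prod (fun p hp => hg0 p (hDP hp)) ?_
      intro p hp
      have h2 : (2 : ℝ) ≤ p := by exact_mod_cast (hPp p (hDP hp)).two_le
      rw [hg]
      simp only
      rw [div_le_iff₀ (by linarith)]
      have h3 : (1 + 1 / (p : ℝ)) ^ 2 * (p - 1) = p + (p ^ 2 - p - 1) / p ^ 2 := by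
        field_simp
        ring
      rw [h3]
      have h4 : 0 ≤ ((p : ℝ) ^ 2 - p - 1) / p ^ 2 := by
        apply div_nonneg _ (by positivity)
        nlinarith
      linarith
    set G := ∏ p ∈ D, (1 + 1 / (p : ℝ)) with hG
    have hG0 : 0 ≤ G := by
      rw [hG]
      refine prod_nonneg ?_
      intro p hp
      positivity
    have hB0 : 0 ≤ ∏ p ∈ B, g p := prod_nonneg (fun p hp => hg0 p (hBmem p hp).1)
    have hA0 : 0 ≤ ∏ p ∈ A, g p := prod_nonneg (fun p hp => hg0 p (hAmem p hp).1)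
    have htot : ∏ p ∈ P, g p ≤ G ^ 2 * (2 ^ 2 ^ i0 * Real.exp 4) := by
      rw [hsplit]
      refine mul_le_mul hD1 ?_ (mul_nonneg hA0 hB0) (by positivity)
      exact mul_le_mul hA1 hB1 hB0 (by positivity)
    have hlt : 2 ^ 2 ^ i0 * Real.exp 4 * 16 < G ^ 2 * (2 ^ 2 ^ i0 * Real.exp 4) :=
      lt_of_lt_of_le hC ((sigma_bound m).trans htot)
    have hK : (0 : ℝ) < 2 ^ 2 ^ i0 * Real.exp 4 := by positivity
    have hG16 : 16 < G ^ 2 := by
      have : (2 ^ 2 ^ i0 * Real.exp 4) * 16 < (2 ^ 2 ^ i0 * Real.exp 4) * G ^ 2 := by linarith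
      exact lt_of_mul_lt_mul_left this hK.le
    have hG4 : 4 ≤ G := by nlinarith
    rw [RS_prod D (fun p hp => hPp p (hDP hp))]
    have hcast : ((∏ p ∈ D, (1 + 1 / (p : ℚ)) : ℚ) : ℝ) = G := by
      rw [hG]
      push_cast
      rfl
    have : ((4 : ℚ) : ℝ) ≤ ((∏ p ∈ D, (1 + 1 / (p : ℚ)) : ℚ) : ℝ) := by
      rw [hcast]
      norm_num
      exact hG4
    exact_mod_cast this

/-- Weird numbers have bounded abundancy index. -/
theorem weird_bounded : ∃ C : ℝ, ∀ m : ℕ, 0 < m →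
      (¬ ∃ s ⊆ m.properDivisors, ∑ i ∈ s, i = m) →
      ((∑ i ∈ m.divisors, i : ℕ) : ℝ) / (m : ℝ) ≤ C := by
  classical
  obtain ⟨C, hC⟩ := dense_exists
  refine ⟨C, ?_⟩
  intro m hm hns
  by_contra hcon
  push Not at hcon
  obtain ⟨D, hD, hblk, h4⟩ := hC m hm hcon
  obtain ⟨S, hS, hS1⟩ := reach_one D
    (fun p hp => Nat.prime_of_mem_primeFactors (hD hp)) hblk h4
  have hDm : ∏ p ∈ D, p ∣ m := by
    refine prod_primes_dvd m ?_ ?_
    · intro p hp
      exact (Nat.prime_of_mem_primeFactors (hD hp)).prime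
    · intro p hp
      exact Nat.dvd_of_mem_primeFactors (hD hp)
  have hSm : ∀ n ∈ S, n ∣ m ∧ n ≠ 1 := fun n hn => ⟨(hS n hn).1.trans hDm, (hS n hn).2⟩
  refine hns ⟨S.image (fun n => m / n), ?_, ?_⟩
  · intro x hx
    rw [mem_image] at hx
    obtain ⟨n, hn, rfl⟩ := hx
    rw [Nat.mem_properDivisors]
    have h1 := hSm n hn
    have hn0 : 0 < n := Nat.pos_of_dvd_of_pos h1.1 hm
    exact ⟨Nat.div_dvd_of_dvd h1.1, Nat.div_lt_self hm (by omega)⟩
  · have hmq : (m : ℚ) ≠ 0 := by exact_mod_cast hm.ne'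
    have hinj : Set.InjOn (fun n => m / n) (S : Set ℕ) := by
      intro a ha b hb h
      simp only at h
      have h1 : m / (m / a) = a := Nat.div_div_self (hSm a ha).1 hm.ne'
      have h2 : m / (m / b) = b := Nat.div_div_self (hSm b hb).1 hm.ne'
      rw [← h1, h, h2]
    rw [sum_image hinj]
    have h1 : ((∑ n ∈ S, m / n : ℕ) : ℚ) = m * RS S := by
      push_cast
      rw [RS, mul_sum]
      refine sum_congr rfl ?_
      intro n hn
      have hnm := (hSm n hn).1
      have hn0 : 0 < n := Nat.pos_of_dvd_of_pos hnm hm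
      rw [Nat.cast_div hnm (by exact_mod_cast hn0.ne')]
      ring
    rw [hS1, mul_one] at h1
    exact_mod_cast h1

end Run7.h419
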